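import Pool.Agent.Lib.MP_799fdf_al.Inf.CharA

/-! # A characteristic `p`-section -/

set_option autoImplicit false

open scoped commutatorElement

namespace MP799fdf

namespace Inf

variable {Q : Type} [Group Q] [Finite Q]

/-- `Q` has no normal elementary abelian `p`-section above `W`. -/
def NoSec (p : ℕ) (W : Subgroup Q) : Prop :=
  ∀ A B : Subgroup Q, A.Normal → B.Normal → W ≤ A → A ≤ B → ⁅B, B⁆ ≤ A → (∀ b ∈ B, b ^ p ∈ A) →
    A = B

omit [Finite Q] in
/-- suprema of characteristic subgroups are characteristic -/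
private theorem charS_sup {X Y : Subgroup Q} (hX : X.Characteristic) (hY : Y.Characteristic) :
    (X ⊔ Y).Characteristic := by
  rw [Subgroup.characteristic_iff_map_le]
  intro φ
  rw [Subgroup.map_sup]
  exact sup_le_sup (Subgroup.characteristic_iff_map_le.1 hX φ)
    (Subgroup.characteristic_iff_map_le.1 hY φ)

omit [Finite Q] in
/-- the subgroup generated by the `p`-th powers is characteristic -/
private theorem charS_pow {W : Subgroup Q} (hW : W.Characteristic) (p : ℕ) :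
    (Subgroup.closure {x | ∃ w ∈ W, w ^ p = x}).Characteristic := by
  rw [Subgroup.characteristic_iff_map_le]
  intro φ
  rw [MonoidHom.map_closure, Subgroup.closure_le]
  rintro _ ⟨_, ⟨w, hw, rfl⟩, rfl⟩
  refine Subgroup.subset_closure ⟨φ w, ?_, ?_⟩
  · exact Subgroup.characteristic_iff_map_le.1 hW φ (Subgroup.mem_map_of_mem φ.toMonoidHom hw)
  · simp

omit [Finite Q] in
/-- a section above `W₂` gives a section above `W` -/
private theorem charS_up {p : ℕ} {W A B : Subgroup Q} (hW : W.Normal) (hA : A.Normal)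
    (hB : B.Normal) (hAB : A ≤ B) (hc : ⁅B, B⁆ ≤ A) (hp : ∀ b ∈ B, b ^ p ∈ A)
    (hn : NoSec p W) (hBW : B ⊓ W ≤ A) : A = B := by
  have h1 : A ⊔ W = B ⊔ W := by
    refine hn (A ⊔ W) (B ⊔ W) inferInstance inferInstance le_sup_right
      (sup_le_sup_right hAB W) ?_ ?_
    · rw [Subgroup.commutator_le]
      intro x hx y hy
      obtain ⟨b, hb, w, hw, rfl⟩ := Subgroup.mem_sup_of_normal_right.1 hx
      obtain ⟨c, hc', v, hv, rfl⟩ := Subgroup.mem_sup_of_normal_right.1 hy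
      rw [← QuotientGroup.eq_one_iff]
      have hw1 : ((w : Q) : Q ⧸ (A ⊔ W)) = 1 :=
        (QuotientGroup.eq_one_iff _).2 (Subgroup.mem_sup_right hw)
      have hv1 : ((v : Q) : Q ⧸ (A ⊔ W)) = 1 :=
        (QuotientGroup.eq_one_iff _).2 (Subgroup.mem_sup_right hv)
      have hbc : ((⁅b, c⁆ : Q) : Q ⧸ (A ⊔ W)) = 1 :=
        (QuotientGroup.eq_one_iff _).2
          (Subgroup.mem_sup_left (hc (Subgroup.commutator_mem_commutator hb hc')))
      rw [commutatorElement_def] at hbc ⊢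
      simp only [QuotientGroup.mk_mul, QuotientGroup.mk_inv, hw1, hv1, mul_one] at hbc ⊢
      exact hbc
    · intro x hx
      obtain ⟨b, hb, w, hw, rfl⟩ := Subgroup.mem_sup_of_normal_right.1 hx
      rw [← QuotientGroup.eq_one_iff]
      have hw1 : ((w : Q) : Q ⧸ (A ⊔ W)) = 1 :=
        (QuotientGroup.eq_one_iff _).2 (Subgroup.mem_sup_right hw)
      have hb1 : ((b ^ p : Q) : Q ⧸ (A ⊔ W)) = 1 :=
        (QuotientGroup.eq_one_iff _).2 (Subgroup.mem_sup_left (hp b hb))
      rw [QuotientGroup.mk_pow] at hb1 ⊢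
      rw [QuotientGroup.mk_mul, hw1, mul_one]
      exact hb1
  refine le_antisymm hAB fun b hb => ?_
  have h2 : b ∈ A ⊔ W := by
    rw [h1]
    exact Subgroup.mem_sup_left hb
  obtain ⟨a, ha, w, hw, rfl⟩ := Subgroup.mem_sup_of_normal_right.1 h2
  refine A.mul_mem ha (hBW ⟨?_, hw⟩)
  have h3 : w = a⁻¹ * (a * w) := by group
  rw [h3]
  exact B.mul_mem (B.inv_mem (hAB ha)) hb

/-- the `p`-th power map on an abelian factor which is generated by `p`-th powers -/
private theorem charS_inj {p : ℕ} {W W₂ A : Subgroup Q} (hW₂ : W₂.Normal)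
    (hc : ⁅W, W⁆ ≤ W₂) (hX : W₂ ⊔ Subgroup.closure {x | ∃ w ∈ W, w ^ p = x} = W)
    (hA : W₂ ≤ A) {b : Q} (hb : b ∈ W) (hbp : b ^ p ∈ A) : b ∈ A := by
  set q := QuotientGroup.mk' W₂ with hq
  have hcomm : ∀ x ∈ W, ∀ y ∈ W, Commute (q x) (q y) := by
    intro x hx y hy
    have h1 : q ⁅x, y⁆ = 1 :=
      (QuotientGroup.eq_one_iff _).2 (hc (Subgroup.commutator_mem_commutator hx hy))
    rw [map_commutatorElement, commutatorElement_eq_one_iff_commute] at h1
    exact h1
  have hle : W₂ ≤ W := by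
    rw [← hX]
    exact le_sup_left
  have hsurj : ∀ y ∈ W, ∃ x ∈ W, q x ^ p = q y := by
    intro y hy
    rw [← hX] at hy
    obtain ⟨z, hz, c, hcc, rfl⟩ := Subgroup.mem_sup_of_normal_left.1 hy
    have hz1 : q z = 1 := (QuotientGroup.eq_one_iff _).2 hz
    have key : ∃ x ∈ W, q x ^ p = q c := by
      clear hy
      induction hcc using Subgroup.closure_induction with
      | mem x hx =>
        obtain ⟨w, hw, rfl⟩ := hx
        exact ⟨w, hw, by rw [map_pow]⟩
      | one => exact ⟨1, W.one_mem, by simp⟩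
      | mul x y _ _ ihx ihy =>
        obtain ⟨u, hu, hu2⟩ := ihx
        obtain ⟨v, hv, hv2⟩ := ihy
        exact ⟨u * v, W.mul_mem hu hv, by
          rw [map_mul, (hcomm u hu v hv).mul_pow, hu2, hv2, map_mul]⟩
      | inv x _ ihx =>
        obtain ⟨u, hu, hu2⟩ := ihx
        exact ⟨u⁻¹, W.inv_mem hu, by rw [map_inv, inv_pow, hu2, map_inv]⟩
    obtain ⟨x, hx, hx2⟩ := key
    exact ⟨x, hx, by rw [hx2, map_mul, hz1, one_mul]⟩
  let V : Subgroup (Q ⧸ W₂) := W.map q
  have hf : Function.Surjective (fun x : V => (⟨(x : Q ⧸ W₂) ^ p, V.pow_mem x.2 p⟩ : V)) := by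
    rintro ⟨_, y, hy, rfl⟩
    obtain ⟨x, hx, hx2⟩ := hsurj y hy
    exact ⟨⟨q x, Subgroup.mem_map_of_mem q hx⟩, Subtype.ext hx2⟩
  have hinj := Finite.injective_iff_surjective.2 hf
  have hpow : ∀ x ∈ W, q x ^ p = 1 → q x = 1 := by
    intro x hx hx2
    have h1 : (⟨q x, Subgroup.mem_map_of_mem q hx⟩ : V) = 1 := by
      apply hinj
      apply Subtype.ext
      simp [hx2]
    exact congrArg Subtype.val h1
  have hcop : p.Coprime (orderOf (q b)) := by
    have ho : 0 < orderOf (q b) := orderOf_pos (q b)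
    have hg0 : 0 < Nat.gcd p (orderOf (q b)) := Nat.gcd_pos_of_pos_right _ ho
    obtain ⟨s, hs⟩ := Nat.gcd_dvd_right p (orderOf (q b))
    obtain ⟨t, ht⟩ := Nat.gcd_dvd_left p (orderOf (q b))
    have h1 : q (b ^ s) ^ p = 1 := by
      rw [map_pow, ← pow_mul, ht]
      have h2 : s * (Nat.gcd p (orderOf (q b)) * t) = orderOf (q b) * t := by
        conv_rhs => rw [hs]
        ring
      rw [h2, pow_mul, pow_orderOf_eq_one, one_pow]
    have h2 := hpow (b ^ s) (W.pow_mem hb s) h1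
    rw [map_pow] at h2
    have h3 : orderOf (q b) ∣ s := orderOf_dvd_of_pow_eq_one h2
    have hs0 : 0 < s := by
      rcases Nat.eq_zero_or_pos s with h | h
      · rw [h, mul_zero] at hs
        omega
      · exact h
    have h4 : orderOf (q b) ≤ s := Nat.le_of_dvd hs0 h3
    have h5 : Nat.gcd p (orderOf (q b)) * s ≤ s := by
      rw [← hs]
      exact h4
    have h6 : Nat.gcd p (orderOf (q b)) ≤ 1 := by
      by_contra h7
      push Not at h7
      nlinarith
    exact le_antisymm h6 hg0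
  obtain ⟨m, hm⟩ := exists_pow_eq_self_of_coprime hcop
  have h1 : q b ∈ A.map q := by
    rw [← hm, ← map_pow, ← map_pow]
    exact Subgroup.mem_map_of_mem q (A.pow_mem hbp m)
  obtain ⟨a, ha, ha2⟩ := h1
  have h2 : a⁻¹ * b ∈ W₂ := QuotientGroup.eq.1 ha2
  have h3 : b = a * (a⁻¹ * b) := by group
  rw [h3]
  exact A.mul_mem ha (hA h2)

/-- PROOF. Let `W` be minimal among the characteristic subgroups with `R₀ ≤ W` and `NoSec p W` (`⊤` is
one; finite). `W ≠ R₀` by the hypothesis. Let `W₂` be maximal among the characteristic subgroups with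
`R₀ ≤ W₂ < W`. `NoSec p W₂` is false: there are normal `A B` with `W₂ ≤ A < B`, `⁅B, B⁆ ≤ A`,
`b ^ p ∈ A`. Put `A' = A ⊓ W`, `B' = B ⊓ W`. If `B' ≤ A` then `A ⊔ W < B ⊔ W` (modular law: if
`B ≤ A ⊔ W` then `B = A ⊔ (B ⊓ W) = A`), and `B ⊔ W` over `A ⊔ W` is again a section of this kind,
against `NoSec p W`. So `A' < B'`. By maximality of `W₂`, `⁅W, W⁆ ⊔ W₂` is `W₂` or `W`. It is not `W`
(`no_abelian_section` for `A' B'`). So `⁅W, W⁆ ≤ W₂`. The subgroup `X = W₂ ⊔ closure {w ^ p | w ∈ W}` is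
characteristic, so it is `W₂` or `W`. If it is `W₂` then `A = W₂`, `B = W` have all properties. If it is
`W`: `W / W₂` is abelian and `w ↦ w ^ p` is surjective on it, so bijective (finite), but an element
`b ∈ B' \ A'` gives... for `b ∈ B'`, `b ^ p ∈ A'`; the `p`-th power map is bijective on `W / W₂` and maps
`A' / W₂` into itself, so bijectively onto itself, and `b ^ p ∈ A'` gives `b ∈ A'`, a contradiction. -/
theorem exists_char (p : ℕ) (R₀ : Subgroup Q) (hR₀ : R₀.Characteristic)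
    (A₀ B₀ : Subgroup Q) (hA₀ : A₀.Normal) (hB₀ : B₀.Normal) (h1 : R₀ ≤ A₀) (h2 : A₀ < B₀)
    (h3 : ⁅B₀, B₀⁆ ≤ A₀) (h4 : ∀ b ∈ B₀, b ^ p ∈ A₀) :
    ∃ A B : Subgroup Q, A.Characteristic ∧ B.Characteristic ∧ R₀ ≤ A ∧ A < B ∧ ⁅B, B⁆ ≤ A ∧
      ∀ b ∈ B, b ^ p ∈ A := by
  obtain ⟨W, ⟨hW1, hW2, hW3⟩, hW4⟩ := (wellFounded_lt : WellFounded
    ((· < ·) : Subgroup Q → Subgroup Q → Prop)).has_min
      {W | W.Characteristic ∧ R₀ ≤ W ∧ NoSec p W} ⟨⊤, inferInstance, le_top, by
        intro A B _ _ h h' _ _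
        exact le_antisymm h' (le_top.trans h)⟩
  have hWn : W.Normal := Subgroup.normal_of_characteristic W
  have hne : R₀ ≠ W := by
    rintro rfl
    exact h2.ne (hW3 A₀ B₀ hA₀ hB₀ h1 h2.le h3 h4)
  obtain ⟨W₂, ⟨hV1, hV2, hV3⟩, hV4⟩ := (wellFounded_gt : WellFounded
    ((· > ·) : Subgroup Q → Subgroup Q → Prop)).has_min
      {X | X.Characteristic ∧ R₀ ≤ X ∧ X < W} ⟨R₀, hR₀, le_rfl, lt_of_le_of_ne hW2 hne⟩
  have hV2n : W₂.Normal := Subgroup.normal_of_characteristic W₂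
  have hmin : ∀ X : Subgroup Q, X.Characteristic → W₂ ≤ X → X ≤ W → X = W₂ ∨ X = W := by
    intro X hX hX1 hX2
    by_contra hX3
    push Not at hX3
    exact hV4 X ⟨hX, hV2.trans hX1, lt_of_le_of_ne hX2 hX3.2⟩
      (lt_of_le_of_ne hX1 (Ne.symm hX3.1))
  have hns : ¬ NoSec p W₂ := fun h => hW4 W₂ ⟨hV1, hV2, h⟩ hV3
  unfold NoSec at hns
  push Not at hns
  obtain ⟨A, B, hA, hB, hWA, hAB, hcAB, hpAB, hneAB⟩ := hns
  have hBW : ¬ B ⊓ W ≤ A := fun h =>
    hneAB (charS_up hWn hA hB hAB hcAB hpAB hW3 h)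
  have hcc : (⁅W, W⁆ ⊔ W₂).Characteristic := charS_sup inferInstance hV1
  rcases hmin _ hcc le_sup_right (sup_le (Subgroup.commutator_le_self W) hV3.le) with hX | hX
  · have hcW : ⁅W, W⁆ ≤ W₂ := by
      rw [← hX]
      exact le_sup_left
    have hXc : (W₂ ⊔ Subgroup.closure {x | ∃ w ∈ W, w ^ p = x}).Characteristic :=
      charS_sup hV1 (charS_pow hW1 p)
    have hXW : W₂ ⊔ Subgroup.closure {x | ∃ w ∈ W, w ^ p = x} ≤ W := by
      refine sup_le hV3.le ((Subgroup.closure_le _).2 ?_)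
      rintro _ ⟨w, hw, rfl⟩
      exact W.pow_mem hw p
    rcases hmin _ hXc le_sup_left hXW with hY | hY
    · refine ⟨W₂, W, hV1, hW1, hV2, hV3, hcW, fun b hb => ?_⟩
      rw [← hY]
      exact Subgroup.mem_sup_right (Subgroup.subset_closure ⟨b, hb, rfl⟩)
    · exfalso
      apply hBW
      rintro b ⟨hb1, hb2⟩
      exact charS_inj hV2n hcW hY hWA hb2 (hpAB b hb1)
  · exfalso
    apply hBW
    have hAn : (A ⊓ W).Normal := inferInstance
    have hBn : (B ⊓ W).Normal := inferInstance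
    have h5 := no_abelian_section W W₂ hW1 hV1 hV3 hX hmin (A ⊓ W) (B ⊓ W) hAn hBn
      (le_inf hWA hV3.le) (inf_le_inf_right W hAB) inf_le_right
      (le_inf ((Subgroup.commutator_mono inf_le_left inf_le_left).trans hcAB)
        ((Subgroup.commutator_mono inf_le_right inf_le_right).trans
          (Subgroup.commutator_le_self W)))
    rw [← h5]
    exact inf_le_left

end Inf

end MP799fdf
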