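import Pool.Agent.Lib.MP_799fdf_al.Inf.Defs

/-! # Basic facts about `Setup` -/

set_option autoImplicit false

open scoped commutatorElement

namespace MP799fdf

namespace Inf

open Inn

/-- PROOF. `Subgroup.map_subtype_commutator` or: the map of `⁅⊤, ⊤⁆` by `L.subtype` is `⁅L, L⁆ = L`
(`Subgroup.map_commutator`), and `Subgroup.map_injective`. -/
theorem perf_top {K : Type} [Group K] {L : Subgroup K} (h : ⁅L, L⁆ = L) :
    ⁅(⊤ : Subgroup L), (⊤ : Subgroup L)⁆ = ⊤ := by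
  apply Subgroup.map_injective L.subtype_injective
  rw [Subgroup.map_commutator, ← MonoidHom.range_eq_map, L.range_subtype, h]

/-- PROOF. `(N ⊔ f.ker) ⊓ R = N` as `R ⊓ f.ker ≤ N` (`loc_inf_ker`); `Subgroup.relIndex_map_map` or a
direct bijection of the cosets. -/
theorem relIndex_map_loc {K A : Type} [Group K] [Group A] (f : K →* A) {R N : Subgroup K}
    (h : Loc R N) (hR : ¬ R ≤ f.ker) : (N.map f).relIndex (R.map f) = N.relIndex R := by
  rw [← Subgroup.relIndex_comap, ← Subgroup.inf_relIndex_right]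
  congr 1
  apply le_antisymm
  · rintro x ⟨hx, hxR⟩
    obtain ⟨y, hy, hyx⟩ := hx
    have hyR := h.lt.le hy
    have h1 : x * y⁻¹ ∈ R ⊓ f.ker := by
      refine ⟨R.mul_mem hxR (R.inv_mem hyR), ?_⟩
      show f (x * y⁻¹) = 1
      rw [map_mul, map_inv, hyx]
      exact mul_inv_cancel _
    have h2 := N.mul_mem (loc_inf_ker h hR h1) hy
    rwa [inv_mul_cancel_right] at h2
  · intro x hx
    exact ⟨⟨x, hx, rfl⟩, h.lt.le hx⟩

/-- PROOF. `Subgroup.relIndex_comap` : `(N.comap f).relIndex R' = N.relIndex (R'.map f)`, and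
`Subgroup.inf_relIndex_left` or similar for the intersection with `R'`. -/
theorem relIndex_lift {K A : Type} [Group K] [Group A] (f : K →* A) {R' : Subgroup K}
    {R N : Subgroup A} (h : R'.map f = R) : (R' ⊓ N.comap f).relIndex R' = N.relIndex R := by
  rw [Subgroup.inf_relIndex_left, Subgroup.relIndex_comap, h]

section

variable {G : Type} [Group G] {p : ℕ} {R H A B : Subgroup G} [H.Normal] {h : G}

/-- An element that centralises `R / H` is in `H`.

PROOF. For `r ∈ R` let `z r = ⁅g, r⁆ ∈ H`, so `g * r * g⁻¹ = z r * r`. Elements of `H` commute with those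
of `R` (`S.cen`). So `g * ⁅r, s⁆ * g⁻¹ = ⁅z r * r, z s * s⁆ = ⁅r, s⁆` for `r s ∈ R`. The set of all
`r ∈ R` with `g * r * g⁻¹ = r` is a subgroup that contains all commutators of `R`, so it contains
`⁅R, R⁆ = R` (`S.loc.perf`, `Subgroup.commutator_le`), and `g ∈ H` by `S.cen`. -/
theorem Setup.cen_quot (S : Setup G p R H A B h) (g : G) (hg : ∀ r ∈ R, ⁅g, r⁆ ∈ H) : g ∈ H := by
  have hconj : ∀ r ∈ R, ∃ z ∈ H, g * r * g⁻¹ = z * r := by
    intro r hr
    refine ⟨⁅g, r⁆, hg r hr, ?_⟩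
    rw [commutatorElement_def]
    group
  let E : Subgroup G :=
    { carrier := {r | g * r * g⁻¹ = r}
      mul_mem' := by
        intro a b ha hb
        have ha' : g * a * g⁻¹ = a := ha
        have hb' : g * b * g⁻¹ = b := hb
        show g * (a * b) * g⁻¹ = a * b
        calc g * (a * b) * g⁻¹ = (g * a * g⁻¹) * (g * b * g⁻¹) := by group
          _ = a * b := by rw [ha', hb']
      one_mem' := by
        show g * 1 * g⁻¹ = 1
        group
      inv_mem' := by
        intro a ha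
        have ha' : g * a * g⁻¹ = a := ha
        show g * a⁻¹ * g⁻¹ = a⁻¹
        calc g * a⁻¹ * g⁻¹ = (g * a * g⁻¹)⁻¹ := by group
          _ = a⁻¹ := by rw [ha'] }
  have hE : R ≤ E := by
    rw [← S.loc.perf, Subgroup.commutator_le]
    intro r hr s hs
    obtain ⟨z, hz, hzr⟩ := hconj r hr
    obtain ⟨w, hw, hws⟩ := hconj s hs
    have hzc := (S.cen z).1 hz
    have hwc := (S.cen w).1 hw
    have hwR : w ∈ R := S.loc.lt.le hw
    have hzR : z ∈ R := S.loc.lt.le hz
    show g * ⁅r, s⁆ * g⁻¹ = ⁅r, s⁆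
    have e1 : g * ⁅r, s⁆ * g⁻¹ = ⁅g * r * g⁻¹, g * s * g⁻¹⁆ := by
      rw [commutatorElement_def, commutatorElement_def]
      group
    have c1 : Commute z r := hzc r hr
    have c2 : Commute z s := hzc s hs
    have c3 : Commute w r := hwc r hr
    have c4 : Commute w s := hwc s hs
    have c5 : Commute z w := hzc w hwR
    rw [e1, hzr, hws, commutatorElement_def, commutatorElement_def]
    have d1 : Commute z (r * s) := c1.mul_right c2
    calc z * r * (w * s) * (z * r)⁻¹ * (w * s)⁻¹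
        = z * (r * w) * s * r⁻¹ * z⁻¹ * s⁻¹ * w⁻¹ := by group
      _ = z * (w * r) * s * r⁻¹ * z⁻¹ * s⁻¹ * w⁻¹ := by rw [c3.eq]
      _ = (z * w) * (r * s * r⁻¹) * z⁻¹ * s⁻¹ * w⁻¹ := by group
      _ = (z * w) * ((r * s * r⁻¹) * z⁻¹) * s⁻¹ * w⁻¹ := by group
      _ = (z * w) * (z⁻¹ * (r * s * r⁻¹)) * s⁻¹ * w⁻¹ := by
        rw [((c1.mul_right c2).mul_right c1.inv_right).inv_left.eq]
      _ = (w * z) * (z⁻¹ * (r * s * r⁻¹)) * s⁻¹ * w⁻¹ := by rw [c5.eq]
      _ = w * (r * s * r⁻¹ * s⁻¹) * w⁻¹ := by group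
      _ = (r * s * r⁻¹ * s⁻¹) * w * w⁻¹ := by
        rw [(((c3.mul_right c4).mul_right c3.inv_right).mul_right c4.inv_right).eq]
      _ = r * s * r⁻¹ * s⁻¹ := by group
  rw [S.cen]
  intro r hr
  have h1 : g * r * g⁻¹ = r := hE hr
  calc g * r = g * r * g⁻¹ * g := by group
    _ = r * g := by rw [h1]

/-- Two homomorphisms from a perfect group to `R` that agree modulo `H` are equal.

PROOF. `α l = β l * z l` with `z l ∈ H`, central in `R` (`S.cen`), so `α ⁅x, y⁆ = β ⁅x, y⁆`; the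
equaliser (`MonoidHom.eqLocus`) contains `⁅⊤, ⊤⁆ = ⊤`. -/
theorem Setup.perf_hom (S : Setup G p R H A B h) {L : Type} [Group L]
    (hL : ⁅(⊤ : Subgroup L), (⊤ : Subgroup L)⁆ = ⊤) (α β : L →* R)
    (hαβ : ∀ l, ((α l : G) : G ⧸ H) = ((β l : G) : G ⧸ H)) : α = β := by
  have hz : ∀ l, ∃ z ∈ H, (α l : G) = β l * z := by
    intro l
    refine ⟨(β l : G)⁻¹ * α l, ?_, by group⟩
    exact QuotientGroup.eq.1 (hαβ l).symm
  have hE : (⊤ : Subgroup L) ≤ α.eqLocus β := by
    rw [← hL, Subgroup.commutator_le]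
    intro x _ y _
    obtain ⟨z, hz1, hzx⟩ := hz x
    obtain ⟨w, hw1, hwy⟩ := hz y
    have hzc := (S.cen z).1 hz1
    have hwc := (S.cen w).1 hw1
    have hwR : w ∈ R := S.loc.lt.le hw1
    show α ⁅x, y⁆ = β ⁅x, y⁆
    apply Subtype.ext
    rw [map_commutatorElement, map_commutatorElement]
    show ⁅(α x : G), (α y : G)⁆ = ⁅(β x : G), (β y : G)⁆
    generalize hr : (β x : G) = r at *
    generalize hs : (β y : G) = s at *
    have hrR : r ∈ R := by rw [← hr]; exact (β x).2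
    have hsR : s ∈ R := by rw [← hs]; exact (β y).2
    have c1 : Commute z r := hzc r hrR
    have c2 : Commute z s := hzc s hsR
    have c3 : Commute w r := hwc r hrR
    have c4 : Commute w s := hwc s hsR
    have c5 : Commute z w := hzc w hwR
    rw [hzx, hwy, commutatorElement_def, commutatorElement_def]
    calc r * z * (s * w) * (r * z)⁻¹ * (s * w)⁻¹
        = r * (z * s) * w * z⁻¹ * r⁻¹ * w⁻¹ * s⁻¹ := by group
      _ = r * (s * z) * w * z⁻¹ * r⁻¹ * w⁻¹ * s⁻¹ := by rw [c2.eq]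
      _ = r * s * (z * w) * z⁻¹ * r⁻¹ * w⁻¹ * s⁻¹ := by group
      _ = r * s * (w * z) * z⁻¹ * r⁻¹ * w⁻¹ * s⁻¹ := by rw [c5.eq]
      _ = r * s * (w * r⁻¹) * w⁻¹ * s⁻¹ := by group
      _ = r * s * (r⁻¹ * w) * w⁻¹ * s⁻¹ := by rw [c3.inv_right.eq]
      _ = r * s * r⁻¹ * s⁻¹ := by group
  ext l
  have h1 : l ∈ α.eqLocus β := hE (Subgroup.mem_top l)
  exact congrArg _ h1

end

end Inf

end MP799fdf
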