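import Pool.Agent.Lib.MP_799fdf_al.Inf.BasA

/-! # Basic facts about `Setup`, part 2 -/

set_option autoImplicit false

open scoped commutatorElement

namespace MP799fdf

namespace Inf

open Inn

section

variable {G : Type} [Group G] {p : ℕ} {R H A B : Subgroup G} [H.Normal] {h : G}

/-- `h` is central in `G`.

PROOF. `S.nt` for `σ = MulAut.conj (g : G ⧸ H)` gives `τ`. The homomorphism `r ↦ g * r * g⁻¹`
(`MulAut.conjNormal g : R ≃* R`) agrees with `τ` modulo `H`, so they are equal (`perf_hom`, `perf_top`).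
At `r = h` : `g * h * g⁻¹ = h`. -/
theorem Setup.h_central (S : Setup G p R H A B h) (g : G) : g * h = h * g := by
  have := S.loc.nR
  obtain ⟨τ, h1, h2⟩ := S.nt (MulAut.conj (g : G ⧸ H))
  have h3 : τ.toMonoidHom = (MulAut.conjNormal g : R ≃* R).toMonoidHom := by
    refine S.perf_hom (perf_top S.loc.perf) _ _ fun l => ?_
    have h2 : (((MulAut.conjNormal g : R ≃* R) l : R) : G) = g * l * g⁻¹ :=
      MulAut.conjNormal_apply g l
    change (((τ l : R) : G) : G ⧸ H) = ((((MulAut.conjNormal g : R ≃* R) l : R) : G) : G ⧸ H)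
    rw [h1, h2]
    rfl
  have h4 := h2 ⟨h, S.loc.lt.le S.hH⟩ rfl
  have h5 : τ ⟨h, S.loc.lt.le S.hH⟩ = (MulAut.conjNormal g : R ≃* R) ⟨h, S.loc.lt.le S.hH⟩ :=
    DFunLike.congr_fun h3 _
  rw [h5] at h4
  have h7 := MulAut.conjNormal_apply g (⟨h, S.loc.lt.le S.hH⟩ : R)
  have h6 : g * h * g⁻¹ = h := h7.symm.trans h4
  exact mul_inv_eq_iff_eq_mul.1 h6

/-- `R / H` is the only local subgroup of `G / H` with a chief factor of order `|R / H|`.

PROOF. `loc_lift` for `QuotientGroup.mk' H` gives `Loc L' N'`, `L'.map = L`, and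
`N'.relIndex L' = N.relIndex L` (`relIndex_lift`). `⁅R, L'⁆` is normal and `≤ R` and `≤ L'`. By
`S.loc.max` it is `≤ H` or `= R`. If `≤ H`: each `g ∈ L'` has `⁅g, r⁆ ∈ H` for all `r ∈ R`, so `L' ≤ H`
(`cen_quot`) and `L = ⊥`, against `hL.lt`. So `R ≤ L'`. If `R ≠ L'` then `R ≤ N'` (`max` of `L'`), and
`N'.relIndex L'` divides `R.index` (`R ≤ N' ≤ L'`: `Subgroup.relIndex_mul_relIndex`,
`Subgroup.relIndex_mul_index`), against `S.dvd`. So `R = L'`. -/
theorem Setup.only [Finite G] (S : Setup G p R H A B h) {L N : Subgroup (G ⧸ H)} (hL : Loc L N)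
    (hi : N.relIndex L = H.relIndex R) : L = R.map (QuotientGroup.mk' H) := by
  obtain ⟨L', N', hL', hmap, hN'⟩ :=
    loc_lift (QuotientGroup.mk' H) (QuotientGroup.mk'_surjective H) hL
  have hrel : N'.relIndex L' = N.relIndex L := by rw [hN', relIndex_lift _ hmap]
  have hR := S.loc.nR
  have hL'n := hL'.nR
  have hcn : (⁅R, L'⁆).Normal := Subgroup.commutator_normal R L'
  rcases S.loc.max _ hcn (Subgroup.commutator_le_left R L') with h1 | h1
  · exfalso
    have h2 : L' ≤ H := fun g hg => S.cen_quot g fun r hr => by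
      have h3 : ⁅r, g⁆ ∈ H := h1 (Subgroup.commutator_mem_commutator hr hg)
      rw [← commutatorElement_inv]
      exact H.inv_mem h3
    have h3 : L = ⊥ := by
      rw [← hmap, Subgroup.map_eq_bot_iff, QuotientGroup.ker_mk']
      exact h2
    exact hL.ne_bot h3
  · have hRL : R ≤ L' := by
      rw [← h1]
      exact Subgroup.commutator_le_right R L'
    rcases hL'.max R S.loc.nR hRL with h2 | h2
    · exfalso
      apply S.dvd
      rw [← hi, ← hrel, ← Subgroup.relIndex_mul_index hRL,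
        ← Subgroup.relIndex_mul_relIndex R N' L' h2 hL'.lt.le]
      exact Dvd.dvd.mul_right (Dvd.intro_left _ rfl) _
    · rw [h2, hmap]

end

end Inf

end MP799fdf
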