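import Mathlib

/-! # Perfect characteristic factors have no normal abelian sections -/

set_option autoImplicit false

open scoped commutatorElement

namespace MP799fdf

namespace Inf

namespace CharA

variable {Q : Type} [Group Q] {W W₂ : Subgroup Q}

/-- A minimal normal subgroup between `W₂` and `W`. -/
structure MinN (W₂ W M : Subgroup Q) : Prop where
  nM : M.Normal
  lt : W₂ < M
  le : M ≤ W
  min : ∀ N : Subgroup Q, N.Normal → W₂ ≤ N → N ≤ M → N = W₂ ∨ N = M

theorem map_eq_of_char {X : Subgroup Q} (hX : X.Characteristic) (α : Q ≃* Q) :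
    X.map α.toMonoidHom = X :=
  Subgroup.characteristic_iff_map_eq.1 hX α

theorem MinN.map {M : Subgroup Q} (hW : W.Characteristic) (hW₂ : W₂.Characteristic)
    (h : MinN W₂ W M) (α : Q ≃* Q) : MinN W₂ W (M.map α.toMonoidHom) := by
  have hinj : Function.Injective α.toMonoidHom := α.injective
  have hsurj : Function.Surjective α.toMonoidHom := α.surjective
  refine ⟨h.nM.map _ hsurj, ?_, ?_, ?_⟩
  · have h1 := (Subgroup.map_lt_map_iff_of_injective hinj).2 h.lt
    rwa [map_eq_of_char hW₂ α] at h1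
  · have h1 := Subgroup.map_mono (f := α.toMonoidHom) h.le
    rwa [map_eq_of_char hW α] at h1
  · intro N hN h1 h2
    have h3 : N = (N.comap α.toMonoidHom).map α.toMonoidHom :=
      (Subgroup.map_comap_eq_self_of_surjective hsurj N).symm
    have h4 : W₂ ≤ N.comap α.toMonoidHom := by
      rw [← Subgroup.map_le_iff_le_comap, map_eq_of_char hW₂ α]
      exact h1
    have h5 : N.comap α.toMonoidHom ≤ M := by
      rw [h3] at h2
      exact (Subgroup.map_le_map_iff_of_injective hinj).1 h2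
    rcases h.min _ (hN.comap _) h4 h5 with h6 | h6
    · left
      rw [h3, h6, map_eq_of_char hW₂ α]
    · right
      rw [h3, h6]

theorem exists_minN [Finite Q] {D : Subgroup Q} (hD : D.Normal) (h1 : W₂ < D) (h2 : D ≤ W) :
    ∃ M, MinN W₂ W M ∧ M ≤ D := by
  obtain ⟨M, ⟨hM1, hM2, hM3⟩, hM4⟩ := (wellFounded_lt : WellFounded
    ((· < ·) : Subgroup Q → Subgroup Q → Prop)).has_min
      {M | M.Normal ∧ W₂ < M ∧ M ≤ D} ⟨D, hD, h1, le_rfl⟩
  refine ⟨M, ⟨hM1, hM2, hM3.trans h2, ?_⟩, hM3⟩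
  intro N hN h3 h4
  by_cases h5 : N = W₂
  · exact Or.inl h5
  · right
    by_contra h6
    exact hM4 N ⟨hN, lt_of_le_of_ne h3 (Ne.symm h5), h4.trans hM3⟩ (lt_of_le_of_ne h4 h6)

theorem iSup_orbit (hW : W.Characteristic) (hW₂ : W₂.Characteristic)
    (hmin : ∀ X : Subgroup Q, X.Characteristic → W₂ ≤ X → X ≤ W → X = W₂ ∨ X = W)
    {M : Subgroup Q} (hM : MinN W₂ W M) : ⨆ α : Q ≃* Q, M.map α.toMonoidHom = W := by
  have h1 : (⨆ α : Q ≃* Q, M.map α.toMonoidHom).Characteristic := by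
    rw [Subgroup.characteristic_iff_map_le]
    intro β
    rw [Subgroup.map_iSup]
    refine iSup_le fun α => ?_
    have h2 : (M.map α.toMonoidHom).map β.toMonoidHom = M.map (α.trans β).toMonoidHom := by
      rw [Subgroup.map_map]
      rfl
    rw [h2]
    exact le_iSup (fun α : Q ≃* Q => M.map α.toMonoidHom) (α.trans β)
  have h2 : M ≤ ⨆ α : Q ≃* Q, M.map α.toMonoidHom := by
    have h3 : M.map (MulEquiv.refl Q).toMonoidHom = M := by
      ext x
      simp
    calc M = M.map (MulEquiv.refl Q).toMonoidHom := h3.symm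
      _ ≤ _ := le_iSup (fun α : Q ≃* Q => M.map α.toMonoidHom) (MulEquiv.refl Q)
  rcases hmin _ h1 (hM.lt.le.trans h2) (iSup_le fun α => (hM.map hW hW₂ α).le) with h3 | h3
  · exact absurd (h2.trans h3.le) (not_le_of_gt hM.lt)
  · exact h3

/-- Elements commuting with `X` modulo `W₂`. -/
def cenM (W₂ X : Subgroup Q) [hn : W₂.Normal] : Subgroup Q :=
  (Subgroup.centralizer ((X.map (QuotientGroup.mk' W₂) : Subgroup (Q ⧸ W₂)) : Set (Q ⧸ W₂))).comap
    (QuotientGroup.mk' W₂)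

theorem le_cenM {X Y : Subgroup Q} [hn : W₂.Normal] : X ≤ cenM W₂ Y ↔ ⁅X, Y⁆ ≤ W₂ := by
  unfold cenM
  rw [← Subgroup.map_le_iff_le_comap, ← Subgroup.commutator_eq_bot_iff_le_centralizer,
    ← Subgroup.map_commutator, Subgroup.map_eq_bot_iff, QuotientGroup.ker_mk']

theorem iSup_comm {ι : Type*} {X : ι → Subgroup Q} (hn : W₂.Normal)
    (h : ∀ i j, ⁅X i, X j⁆ ≤ W₂) : ⁅⨆ i, X i, ⨆ i, X i⁆ ≤ W₂ := by
  rw [← le_cenM]
  refine iSup_le fun i => ?_
  rw [le_cenM, Subgroup.commutator_comm, ← le_cenM]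
  exact iSup_le fun j => le_cenM.2 (h j i)

/-- No minimal normal subgroup is abelian modulo `W₂`. -/
theorem not_abelian (hW : W.Characteristic) (hW₂ : W₂.Characteristic)
    (hlt : W₂ < W) (hperf : ⁅W, W⁆ ⊔ W₂ = W)
    (hmin : ∀ X : Subgroup Q, X.Characteristic → W₂ ≤ X → X ≤ W → X = W₂ ∨ X = W)
    {M : Subgroup Q} (hM : MinN W₂ W M) : ¬ ⁅M, M⁆ ≤ W₂ := by
  intro h
  have hn : W₂.Normal := Subgroup.normal_of_characteristic W₂
  have h1 : ⁅W, W⁆ ≤ W₂ := by
    rw [← iSup_orbit hW hW₂ hmin hM]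
    refine iSup_comm hn fun α β => ?_
    by_cases h2 : M.map α.toMonoidHom = M.map β.toMonoidHom
    · rw [← h2, ← Subgroup.map_commutator, ← map_eq_of_char hW₂ α]
      exact Subgroup.map_mono h
    · have h3 := hM.map hW hW₂ α
      have h4 := hM.map hW hW₂ β
      have h5 := h3.nM
      have h6 := h4.nM
      refine (Subgroup.commutator_le_inf _ _).trans ?_
      rcases h3.min (M.map α.toMonoidHom ⊓ M.map β.toMonoidHom) inferInstance
        (le_inf h3.lt.le h4.lt.le) inf_le_left with h7 | h7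
      · exact h7.le
      · have h8 : M.map α.toMonoidHom ≤ M.map β.toMonoidHom := by
          rw [← h7]
          exact inf_le_right
        rcases h4.min _ h5 h3.lt.le h8 with h9 | h9
        · exact absurd h9.le (not_le_of_gt h3.lt)
        · exact absurd h9 h2
  rw [sup_eq_right.2 h1] at hperf
  exact hlt.ne hperf

/-- Complements of normal subgroups. -/
theorem exists_compl [Finite Q] (hW : W.Characteristic) (hW₂ : W₂.Characteristic) (hlt : W₂ < W)
    (hmin : ∀ X : Subgroup Q, X.Characteristic → W₂ ≤ X → X ≤ W → X = W₂ ∨ X = W)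
    {A : Subgroup Q} (hA : A.Normal) (h1 : W₂ ≤ A) (h2 : A ≤ W) :
    ∃ C : Subgroup Q, C.Normal ∧ W₂ ≤ C ∧ C ≤ W ∧ A ⊓ C = W₂ ∧ A ⊔ C = W := by
  have hn : W₂.Normal := Subgroup.normal_of_characteristic W₂
  have hnW : W.Normal := Subgroup.normal_of_characteristic W
  obtain ⟨C, ⟨hC1, hC2, hC3, hC4⟩, hC5⟩ := (wellFounded_gt : WellFounded
    ((· > ·) : Subgroup Q → Subgroup Q → Prop)).has_min
      {C | C.Normal ∧ W₂ ≤ C ∧ C ≤ W ∧ A ⊓ C = W₂} ⟨W₂, hn, le_rfl, hlt.le, inf_eq_right.2 h1⟩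
  refine ⟨C, hC1, hC2, hC3, hC4, ?_⟩
  obtain ⟨M₀, hM₀, -⟩ := exists_minN hnW hlt le_rfl
  by_contra h3
  have h4 : ∃ α : Q ≃* Q, ¬ M₀.map α.toMonoidHom ≤ A ⊔ C := by
    by_contra h5
    push Not at h5
    apply h3
    refine le_antisymm (sup_le h2 hC3) ?_
    rw [← iSup_orbit hW hW₂ hmin hM₀]
    exact iSup_le h5
  obtain ⟨α, hα⟩ := h4
  have hM := hM₀.map hW hW₂ α
  set M := M₀.map α.toMonoidHom with hMdef
  have hMn := hM.nM
  have h5 : M ⊓ (A ⊔ C) = W₂ := by
    rcases hM.min (M ⊓ (A ⊔ C)) inferInstance (le_inf hM.lt.le (h1.trans le_sup_left))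
      inf_le_left with h6 | h6
    · exact h6
    · exact absurd (inf_eq_left.1 h6) hα
  have h6 : A ⊓ (C ⊔ M) = W₂ := by
    refine le_antisymm ?_ (le_inf h1 (hC2.trans le_sup_left))
    rintro x ⟨hx1, hx2⟩
    obtain ⟨c, hc, m, hm, rfl⟩ := Subgroup.mem_sup_of_normal_right.1 hx2
    have h7 : m ∈ M ⊓ (A ⊔ C) := by
      refine ⟨hm, ?_⟩
      have h8 : m = c⁻¹ * (c * m) := by group
      rw [h8]
      exact (A ⊔ C).mul_mem ((A ⊔ C).inv_mem (Subgroup.mem_sup_right hc))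
        (Subgroup.mem_sup_left hx1)
    rw [h5] at h7
    rw [← hC4]
    exact ⟨hx1, C.mul_mem hc (hC2 h7)⟩
  refine hC5 (C ⊔ M) ⟨inferInstance, hC2.trans le_sup_left, sup_le hC3 hM.le, h6⟩ ?_
  refine lt_of_le_of_ne le_sup_left fun h7 => hα ?_
  rw [left_eq_sup] at h7
  exact h7.trans le_sup_right

end CharA

/-- The case of a perfect characteristic factor `W / W₂` without characteristic subgroups in between:
it has no normal abelian sections. -/
theorem no_abelian_section {Q : Type} [Group Q] [Finite Q] (W W₂ : Subgroup Q)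
    (hW : W.Characteristic) (hW₂ : W₂.Characteristic)
    (hlt : W₂ < W) (hperf : ⁅W, W⁆ ⊔ W₂ = W)
    (hmin : ∀ X : Subgroup Q, X.Characteristic → W₂ ≤ X → X ≤ W → X = W₂ ∨ X = W)
    (A B : Subgroup Q) (hA : A.Normal) (hB : B.Normal) (h1 : W₂ ≤ A) (h2 : A ≤ B) (h3 : B ≤ W)
    (h4 : ⁅B, B⁆ ≤ A) : A = B := by
  obtain ⟨C, hC1, hC2, hC3, hC4, hC5⟩ := CharA.exists_compl hW hW₂ hlt hmin hA h1 (h2.trans h3)
  have h5 : B ⊓ C = W₂ := by
    by_contra h6
    have h7 : W₂ < B ⊓ C := lt_of_le_of_ne (le_inf (h1.trans h2) hC2) (Ne.symm h6)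
    obtain ⟨M, hM, hM2⟩ := CharA.exists_minN (W := W) inferInstance h7 (inf_le_left.trans h3)
    apply CharA.not_abelian hW hW₂ hlt hperf hmin hM
    rw [← hC4]
    exact le_inf ((Subgroup.commutator_mono (hM2.trans inf_le_left)
      (hM2.trans inf_le_left)).trans h4) ((Subgroup.commutator_mono (hM2.trans inf_le_right)
      (hM2.trans inf_le_right)).trans (Subgroup.commutator_le_self C))
  refine le_antisymm h2 fun b hb => ?_
  have h6 : b ∈ A ⊔ C := by
    rw [hC5]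
    exact h3 hb
  obtain ⟨a, ha, c, hc, rfl⟩ := Subgroup.mem_sup_of_normal_right.1 h6
  have h7 : c ∈ B ⊓ C := by
    refine ⟨?_, hc⟩
    have h8 : c = a⁻¹ * (a * c) := by group
    rw [h8]
    exact B.mul_mem (B.inv_mem (h2 ha)) hb
  rw [h5] at h7
  exact A.mul_mem ha (h1 h7)

end Inf

end MP799fdf
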