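import Pool.Agent.Lib.MP_799fdf_al.Inf.CompB

/-! # Counting components -/

set_option autoImplicit false

open scoped commutatorElement

namespace MP799fdf

namespace Inf

open Inn

variable {G : Type} [Group G] {p : ℕ} {R H A B : Subgroup G} [H.Normal] {h : G}
variable {V K P : Type} [Group K] [Group P]

/-- PROOF. `loc_lift` for `comp_loc S C v`; index: `relIndex_lift`, `comp_index`. -/
theorem exists_LL [Finite P] (S : Setup G p R H A B h) (C : Comp G R H h V K) (ψ : P →* K)
    (hψ : Function.Surjective ψ) (v : V) :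
    ∃ L : LL P (H.relIndex R), L.1.map ψ = (C.ι v).range := by
  obtain ⟨R', N', hL, hm, hN⟩ := loc_lift ψ hψ (comp_loc S C v)
  refine ⟨⟨R', N', hL, ?_⟩, hm⟩
  rw [hN, relIndex_lift ψ hm, comp_index]

/-- PROOF. The map from the right to the left takes `v` to a chosen `L` with `L.map ψ = (C.ι v).range`
(`exists_LL`); `f L ↔ g v`; `¬ L ≤ ψ.ker` as the range is not `⊥` (`(comp_loc S C v).ne_bot`). Injective:
`comp_range_inj`. Surjective: for `L` with `¬ L ≤ ψ.ker`, `comp_image` gives `v` with
`L.map ψ = (C.ι v).range`, and the chosen subgroup for `v` is `L` by `loc_map_inj`.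
`Nat.card_eq_of_bijective` or `Nat.card_congr (Equiv.ofBijective ..)`. -/
theorem count_eq [Finite G] [Finite P] [Finite K] (S : Setup G p R H A B h)
    (C : Comp G R H h V K) (ψ : P →* K) (hψ : Function.Surjective ψ)
    (f : LL P (H.relIndex R) → Prop) (g : V → Prop)
    (hfg : ∀ (L : LL P (H.relIndex R)) (v : V), L.1.map ψ = (C.ι v).range → (f L ↔ g v)) :
    Nat.card {L : LL P (H.relIndex R) // f L ∧ ¬ L.1 ≤ ψ.ker} = Nat.card {v : V // g v} := by
  choose F hF using fun v => exists_LL S C ψ hψ v
  have hker : ∀ v, ¬ (F v).1 ≤ ψ.ker := fun v hv => by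
    have h1 : (F v).1.map ψ = ⊥ := (Subgroup.map_eq_bot_iff _).2 hv
    exact (comp_loc S C v).ne_bot ((hF v).symm.trans h1)
  let Φ : {v : V // g v} → {L : LL P (H.relIndex R) // f L ∧ ¬ L.1 ≤ ψ.ker} :=
    fun v => ⟨F v.1, (hfg _ _ (hF v.1)).2 v.2, hker v.1⟩
  have hbij : Function.Bijective Φ := by
    constructor
    · intro v w hvw
      have h1 : F v.1 = F w.1 := congrArg Subtype.val hvw
      have h2 : (C.ι v.1).range = (C.ι w.1).range := by rw [← hF, ← hF, h1]
      exact Subtype.ext (comp_range_inj S C h2)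
    · rintro ⟨L, hfL, hk⟩
      obtain ⟨N, hL, hi⟩ := L.2
      obtain ⟨v, hv⟩ := comp_image S C ψ hψ hL hi hk
      obtain ⟨N', hL', hi'⟩ := (F v).2
      have h1 : (F v).1 = L.1 := loc_map_inj ψ hψ hL' hL (hker v) ((hF v).trans hv.symm)
      refine ⟨⟨v, (hfg L v hv).1 hfL⟩, ?_⟩
      exact Subtype.ext (Subtype.ext h1)
  exact (Nat.card_eq_of_bijective Φ hbij).symm

/-- PROOF. Induction on the list; powers of `z` commute. -/
theorem list_prod_pow {X : Type} {Q : Type} [Group Q] (z : Q) (s : X → Prop) [DecidablePred s]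
    (l : List X) : (l.map fun x => if s x then z else 1).prod = z ^ (l.filter fun x => s x).length := by
  induction l with
  | nil => simp
  | cons x l ih =>
    rw [List.map_cons, List.prod_cons, ih]
    by_cases hx : s x
    · rw [if_pos hx, List.filter_cons_of_pos (by simpa using hx), List.length_cons, pow_succ']
    · rw [if_neg hx, List.filter_cons_of_neg (by simpa using hx), one_mul]

end Inf

end MP799fdf
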