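import Pool.Agent.Lib.MP_799fdf_al.Inf.BasA

/-! # The components of `K` are local subgroups -/

set_option autoImplicit false

open scoped commutatorElement

namespace MP799fdf

namespace Inf

open Inn

variable {G : Type} [Group G] {p : ℕ} {R H A B : Subgroup G} [H.Normal] {h : G}
variable {V K : Type} [Group K]

/-- PROOF. For `k : K` there is `g : G` with `C.π v k = g` (`QuotientGroup.mk_surjective`); `C.conj` with
`s = ⟨g * r * g⁻¹, _⟩` (`R` is normal: `S.loc.nR`). -/
theorem comp_range_normal (S : Setup G p R H A B h) (C : Comp G R H h V K) (v : V) :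
    (C.ι v).range.Normal := by
  refine ⟨fun x hx k => ?_⟩
  obtain ⟨r, rfl⟩ := hx
  obtain ⟨g, hg⟩ := QuotientGroup.mk_surjective (C.π v k)
  exact ⟨⟨g * r * g⁻¹, S.loc.nR.conj_mem r r.2 g⟩, (C.conj v k g r _ hg.symm rfl).symm⟩

/-- PROOF. `C.conj` with `g = 1` and `k = C.ι w s` (`C.off`). -/
theorem comp_comm (C : Comp G R H h V K) {v w : V} (hvw : v ≠ w) (r s : R) :
    C.ι v r * C.ι w s = C.ι w s * C.ι v r := by
  have h1 := C.conj v (C.ι w s) 1 r r (by rw [C.off w v s (Ne.symm hvw)]; rfl) (by simp)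
  exact (mul_inv_eq_iff_eq_mul.1 h1).symm

/-- PROOF. `H` and `R` commute (`S.cen`), `C.ι v` is a homomorphism. -/
theorem comp_cen (S : Setup G p R H A B h) (C : Comp G R H h V K) (v : V) (r s : R)
    (hr : (r : G) ∈ H) : C.ι v r * C.ι v s = C.ι v s * C.ι v r := by
  rw [← map_mul, ← map_mul]
  congr 1
  apply Subtype.ext
  exact (S.cen r).1 hr s s.2

/-- PROOF. If `C.ι v r = C.ι w s` with `v ≠ w` then `π v` of it is `r` modulo `H` and `1`, so `r ∈ H`
(`C.diag`, `C.off`). As `H < R` (`S.loc.lt`), the ranges are different. -/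
theorem comp_range_inj (S : Setup G p R H A B h) (C : Comp G R H h V K) {v w : V}
    (hvw : (C.ι v).range = (C.ι w).range) : v = w := by
  by_contra hne
  refine absurd S.loc.lt (not_lt_of_ge fun r hr => ?_)
  have h1 : C.ι v ⟨r, hr⟩ ∈ (C.ι w).range := by
    rw [← hvw]
    exact ⟨_, rfl⟩
  obtain ⟨s, hs⟩ := h1
  have h2 := C.diag v ⟨r, hr⟩
  rw [← hs, C.off w v s (Ne.symm hne)] at h2
  exact (QuotientGroup.eq_one_iff r).1 h2.symm

/-- PROOF. Normal: `comp_range_normal`; the second one by the same computation (`H` is normal in `G`).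
`lt`: `S.loc.lt` and `C.inj`. `perf`: `Subgroup.map_commutator` and `perf_top`
(`MonoidHom.range_eq_map`). `max`: for `M` normal in `K`, `M ≤ (C.ι v).range`, let
`M' = (M.comap (C.ι v)).map R.subtype`; it is normal in `G` (for `g : G` choose `k` with `C.π v k = g`
by `C.surj`, then `C.conj`), and `M' ≤ R`, so `M' ≤ H` or `M' = R` (`S.loc.max`). -/
theorem comp_loc (S : Setup G p R H A B h) (C : Comp G R H h V K) (v : V) :
    Loc (C.ι v).range ((H.subgroupOf R).map (C.ι v)) := by
  refine ⟨comp_range_normal S C v, ?_, ?_, ?_, ?_⟩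
  · refine ⟨fun x hx k => ?_⟩
    obtain ⟨r, hr, rfl⟩ := hx
    obtain ⟨g, hg⟩ := QuotientGroup.mk_surjective (C.π v k)
    have hrH : (r : G) ∈ H := hr
    refine ⟨⟨g * r * g⁻¹, S.loc.nR.conj_mem r r.2 g⟩, ?_, (C.conj v k g r _ hg.symm rfl).symm⟩
    show g * r * g⁻¹ ∈ H
    exact ‹H.Normal›.conj_mem _ hrH g
  · refine lt_of_le_of_ne (Subgroup.map_le_range _ _) fun e => ?_
    refine absurd S.loc.lt (not_lt_of_ge fun r hr => ?_)
    have h1 : C.ι v ⟨r, hr⟩ ∈ (H.subgroupOf R).map (C.ι v) := by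
      rw [e]
      exact ⟨_, rfl⟩
    obtain ⟨s, hs, h2⟩ := h1
    have h3 := C.inj v h2
    have h4 : (s : G) ∈ H := hs
    rw [h3] at h4
    exact h4
  · rw [MonoidHom.range_eq_map, ← Subgroup.map_commutator, perf_top S.loc.perf]
  · intro M hM hMR
    have hMn : ((M.comap (C.ι v)).map R.subtype).Normal := by
      refine ⟨fun x hx g => ?_⟩
      obtain ⟨r, hr, rfl⟩ := hx
      obtain ⟨k, hk⟩ := C.surj v (g : G ⧸ H)
      refine ⟨⟨g * r * g⁻¹, S.loc.nR.conj_mem r r.2 g⟩, ?_, rfl⟩
      show C.ι v ⟨g * r * g⁻¹, _⟩ ∈ M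
      rw [← C.conj v k g r _ hk rfl]
      exact hM.conj_mem _ hr k
    rcases S.loc.max _ hMn (Subgroup.map_subtype_le _) with h1 | h1
    · left
      intro x hx
      obtain ⟨r, rfl⟩ := hMR hx
      exact ⟨r, h1 ⟨r, hx, rfl⟩, rfl⟩
    · right
      refine le_antisymm hMR ?_
      rintro x ⟨r, rfl⟩
      have h2 : (r : G) ∈ (M.comap (C.ι v)).map R.subtype := by
        rw [h1]
        exact r.2
      obtain ⟨s, hs, h3⟩ := h2
      have h4 : s = r := Subtype.ext h3
      rw [← h4]
      exact hs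

/-- PROOF. `C.inj`: `Subgroup.relIndex_map_map_of_injective` or similar; `H.relIndex R` is by definition
the index of `H.subgroupOf R`. -/
theorem comp_index (C : Comp G R H h V K) (v : V) :
    ((H.subgroupOf R).map (C.ι v)).relIndex (C.ι v).range = H.relIndex R := by
  rw [MonoidHom.range_eq_map, ← Subgroup.relIndex_comap,
    Subgroup.comap_map_eq_self_of_injective (C.inj v), Subgroup.relIndex_top_right]
  rfl

end Inf

end MP799fdf
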