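import Pool.Agent.Lib.MP_799fdf_al.Inf.CompA
import Pool.Agent.Lib.MP_799fdf_al.Inf.BasB

/-! # The components are the only local subgroups of their index -/

set_option autoImplicit false

open scoped commutatorElement

namespace MP799fdf

namespace Inf

open Inn

variable {G : Type} [Group G] {p : ℕ} {R H A B : Subgroup G} [H.Normal] {h : G}
variable {V K : Type} [Group K]

/-- PROOF. `⁅L, C⁆` with `C = (C.ι v).range` is normal, `≤ L` and `≤ (C.ι v).range`. By
`(comp_loc S C v).max` it is `(C.ι v).range` (then the range is `≤ L`), or it is `≤ (H.subgroupOf R).map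
(C.ι v)`, whose elements commute with those of the range (`comp_cen`). In the second case let `k ∈ L`,
`C.π v k = g` : for `r : R`, `k * C.ι v r * k⁻¹ = C.ι v ⟨g r g⁻¹, _⟩` (`C.conj`), so
`⁅k, C.ι v r⁆ = C.ι v ⟨⁅g, r⁆, _⟩` and `⁅g, r⁆ ∈ H` (`C.inj`); so `g ∈ H` (`S.cen_quot`), `C.π v k = 1`. -/
theorem comp_or (S : Setup G p R H A B h) (C : Comp G R H h V K) {L : Subgroup K}
    (hL : L.Normal) (v : V) : (C.ι v).range ≤ L ∨ ∀ k ∈ L, C.π v k = 1 := by
  have hl := comp_loc S C v
  have hR' := hl.nR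
  have hn : ⁅L, (C.ι v).range⁆.Normal := Subgroup.commutator_normal _ _
  have h1 : ⁅L, (C.ι v).range⁆ ≤ L := Subgroup.commutator_le_left _ _
  have h2 : ⁅L, (C.ι v).range⁆ ≤ (C.ι v).range := Subgroup.commutator_le_right _ _
  rcases hl.max _ hn h2 with h3 | h3
  · right
    intro k hk
    obtain ⟨g, hg⟩ := QuotientGroup.mk_surjective (C.π v k)
    have hR := S.loc.nR
    have hgH : g ∈ H := by
      refine S.cen_quot g fun r hr => ?_
      have hgr : g * r * g⁻¹ ∈ R := hR.conj_mem r hr g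
      have e := C.conj v k g ⟨r, hr⟩ ⟨g * r * g⁻¹, hgr⟩ hg.symm rfl
      have hm : ⁅k, C.ι v ⟨r, hr⟩⁆ ∈ ⁅L, (C.ι v).range⁆ :=
        Subgroup.commutator_mem_commutator hk ⟨_, rfl⟩
      obtain ⟨s, hs, hse⟩ := Subgroup.mem_map.1 (h3 hm)
      have e2 : C.ι v s = C.ι v (⟨g * r * g⁻¹, hgr⟩ * ⟨r, hr⟩⁻¹) := by
        rw [hse, map_mul, map_inv, ← e, commutatorElement_def]
      have e3 := C.inj v e2
      have h4 := Subgroup.mem_subgroupOf.1 hs
      rw [e3] at h4
      rw [commutatorElement_def]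
      exact h4
    rw [← hg]
    exact (QuotientGroup.eq_one_iff g).2 hgH
  · left
    rw [← h3]
    exact h1

/-- A local subgroup of `K` with the index of `R / H` is a component.

PROOF. If `C.π v k = 1` for all `k ∈ L` and all `v`, then `L` is commutative (`C.ker`), `⁅L, L⁆ = ⊥`,
against `hL.perf` and `hL.lt`. So `(C.ι v).range ≤ L` for some `v` (`comp_or`). Suppose they are
different. Then `(C.ι v).range ≤ N` (`hL.max`). `L` is not `≤ (C.π v).ker` (`C.diag`, `S.loc.lt`). So
`Loc (L.map (C.π v)) (N.map (C.π v))` (`loc_map`), with the same index (`relIndex_map_loc`), and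
`L.map (C.π v) = R.map (mk' H)` (`S.only`). But `R.map (mk' H) = (C.ι v).range.map (C.π v) ≤ N.map (C.π v)`
(`C.diag`), against `lt` of the image. -/
theorem comp_only [Finite G] [Finite K] (S : Setup G p R H A B h) (C : Comp G R H h V K)
    {L N : Subgroup K} (hL : Loc L N) (hi : N.relIndex L = H.relIndex R) :
    ∃ v, L = (C.ι v).range := by
  by_cases hv : ∃ v, (C.ι v).range ≤ L
  · obtain ⟨v, hv⟩ := hv
    refine ⟨v, ?_⟩
    by_contra hne
    have hcv := comp_loc S C v
    rcases hL.max _ hcv.nR hv with h1 | h1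
    · have hk : ¬ L ≤ (C.π v).ker := by
        intro h2
        refine absurd S.loc.lt (not_lt_of_ge fun r hr => ?_)
        have h3 := h2 (hv ⟨⟨r, hr⟩, rfl⟩)
        rw [MonoidHom.mem_ker, C.diag] at h3
        exact (QuotientGroup.eq_one_iff r).1 h3
      have hLm := loc_map (C.π v) (C.surj v) hL hk
      have hi' := (relIndex_map_loc (C.π v) hL hk).trans hi
      have e := S.only hLm hi'
      refine absurd hLm.lt (not_lt_of_ge ?_)
      rw [e]
      rintro _ ⟨r, hr, rfl⟩
      exact ⟨C.ι v ⟨r, hr⟩, h1 ⟨_, rfl⟩, C.diag v ⟨r, hr⟩⟩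
    · exact hne h1.symm
  · exfalso
    have h0 : ∀ k ∈ L, ∀ v, C.π v k = 1 := fun k hk v =>
      (comp_or S C hL.nR v).resolve_left (fun h1 => hv ⟨v, h1⟩) k hk
    have hbot : ⁅L, L⁆ = ⊥ := by
      rw [Subgroup.commutator_eq_bot_iff_le_centralizer]
      intro k hk
      rw [Subgroup.mem_centralizer_iff]
      intro l hl
      exact C.ker l k (h0 l hl) (h0 k hk)
    rw [hL.perf] at hbot
    have h2 := hL.lt
    rw [hbot] at h2
    exact not_lt_bot h2

/-- PROOF. `loc_map`, `relIndex_map_loc`, `comp_only`. -/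
theorem comp_image [Finite G] [Finite K] {P : Type} [Group P] (S : Setup G p R H A B h)
    (C : Comp G R H h V K) (ψ : P →* K) (hψ : Function.Surjective ψ) {L N : Subgroup P}
    (hL : Loc L N) (hi : N.relIndex L = H.relIndex R) (hk : ¬ L ≤ ψ.ker) :
    ∃ v, L.map ψ = (C.ι v).range := by
  exact comp_only S C (loc_map ψ hψ hL hk) ((relIndex_map_loc ψ hL hk).trans hi)

end Inf

end MP799fdf
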