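import Pool.Agent.Lib.MP_799fdf_al.Inn.LocB

/-!
# Infinitely many subformations: definitions

`Setup G p R H A B h`: `R` is a perfect normal subgroup of `G` with centraliser `H ≤ R`, `R / H` is a
chief factor, `h ∈ H` has prime order `p` and is fixed by all automorphisms of `G / H` (in the sense of
`nt`), and `B / A` is an elementary abelian `p`-section, `R ≤ A < B`, characteristic modulo `H`.
-/

set_option autoImplicit false

open scoped commutatorElement

namespace MP799fdf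

namespace Inf

open Inn

/-- The hypotheses on `G`. -/
structure Setup (G : Type) [Group G] (p : ℕ) (R H A B : Subgroup G) [H.Normal] (h : G) : Prop where
  hp : p.Prime
  loc : Loc R H
  cen : ∀ g : G, g ∈ H ↔ ∀ r ∈ R, g * r = r * g
  dvd : ¬ H.relIndex R ∣ R.index
  nA : A.Normal
  nB : B.Normal
  RA : R ≤ A
  AB : A < B
  BA : ⁅B, B⁆ ≤ A
  Bp : ∀ b ∈ B, b ^ p ∈ A
  charA : ∀ (σ : (G ⧸ H) ≃* (G ⧸ H)) (x y : G), σ (x : G ⧸ H) = (y : G ⧸ H) → (x ∈ A ↔ y ∈ A)
  charB : ∀ (σ : (G ⧸ H) ≃* (G ⧸ H)) (x y : G), σ (x : G ⧸ H) = (y : G ⧸ H) → (x ∈ B ↔ y ∈ B)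
  hH : h ∈ H
  h1 : h ≠ 1
  hhp : h ^ p = 1
  nt : ∀ σ : (G ⧸ H) ≃* (G ⧸ H), ∃ τ : R ≃* R,
    (∀ r : R, (((τ r : R) : G) : G ⧸ H) = σ ((r : G) : G ⧸ H)) ∧
      ∀ r : R, (r : G) = h → ((τ r : R) : G) = h

/-- `K` has normal subgroups isomorphic to `R`, indexed by `V`, which share the element `h`. -/
structure Comp (G : Type) [Group G] (R H : Subgroup G) [H.Normal] (h : G) (V K : Type)
    [Group K] where
  /-- the embeddings of `R` -/
  ι : V → R →* K
  /-- the coordinates modulo `H` -/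
  π : V → K →* G ⧸ H
  inj : ∀ v, Function.Injective (ι v)
  surj : ∀ v, Function.Surjective (π v)
  conj : ∀ (v : V) (k : K) (g : G) (r s : R), π v k = (g : G ⧸ H) → (s : G) = g * r * g⁻¹ →
    k * ι v r * k⁻¹ = ι v s
  diag : ∀ (v : V) (r : R), π v (ι v r) = ((r : G) : G ⧸ H)
  off : ∀ (v w : V) (r : R), v ≠ w → π w (ι v r) = 1
  same : ∀ (v w : V) (r : R), (r : G) = h → ι v r = ι w r
  ker : ∀ k l : K, (∀ v, π v k = 1) → (∀ v, π v l = 1) → k * l = l * k

/-- all `y i` have their `v`-th coordinate in `B` and not in `A` -/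
def Good {G : Type} [Group G] {R H : Subgroup G} [H.Normal] {h : G} {V K : Type} [Group K]
    (A B : Subgroup G) (C : Comp G R H h V K) {m : ℕ} (y : Fin m → K) (v : V) : Prop :=
  ∀ i, ∃ g : G, g ∈ B ∧ g ∉ A ∧ C.π v (y i) = (g : G ⧸ H)

/-- the local subgroups whose chief factor has order `k` -/
def LL (P : Type) [Group P] (k : ℕ) : Type :=
  {L : Subgroup P // ∃ N, Loc L N ∧ N.relIndex L = k}

end Inf

end MP799fdf
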