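import Pool.Agent.Lib.MP_799fdf_al.Inf.KtA

/-! # Counting values of affine functions -/

set_option autoImplicit false

open scoped commutatorElement

namespace MP799fdf

namespace Inf

open Inn

variable {G : Type} [Group G] [Finite G] {A B : Subgroup G} [A.Normal] {hB : B.Normal}
  {hBA : ⁅B, B⁆ ≤ A} {p n m : ℕ}

/-- PROOF. The map `t ↦ (fun i => (x i 0)⁻¹ * x i t)` goes from `Fin n → ZMod p` (with `p ^ n` elements)
to `Fin m → B.map (mk' A)` (with `(A.relIndex B) ^ m` elements; `mem_kt`), so it is not injective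
(`Finite.exists_ne_map_eq_of_infinite`-like, or `Fintype.exists_ne_map_eq_of_card_lt`): there are
`s ≠ t` with `x i s = x i t` modulo `A` for all `i`. Put `u = t - s`. By `mem_kt`,
`x i t = x i (s + u) = x i s * (x i 0)⁻¹ * x i u` modulo `A`, so `(x i 0)⁻¹ * x i u = 1`, and
`x i (v + u) = x i v * (x i 0)⁻¹ * x i u = x i v`. -/
theorem exists_period [Fact p.Prime] (hlt : A.relIndex B ^ m < p ^ n)
    (x : Fin m → (Fin n → ZMod p) → G) (hx : ∀ i, x i ∈ Kt A B hB hBA (Fin n → ZMod p)) :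
    ∃ u : Fin n → ZMod p, u ≠ 0 ∧ ∀ i v, ((x i (v + u) : G) : G ⧸ A) = ((x i v : G) : G ⧸ A) := by
  classical
  have hk : ∀ i, (∀ v, ((x i 0 : G) : G ⧸ A)⁻¹ * (x i v : G ⧸ A) ∈ B.map (QuotientGroup.mk' A)) ∧
      ∀ v w, ((x i (v + w) : G) : G ⧸ A) =
        (x i v : G ⧸ A) * ((x i 0 : G) : G ⧸ A)⁻¹ * (x i w : G ⧸ A) := fun i => mem_kt.1 (hx i)
  have hcard : Nat.card (B.map (QuotientGroup.mk' A)) = A.relIndex B := by
    rw [← Subgroup.relIndex_ker, QuotientGroup.ker_mk']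
  have hninj : ¬ Function.Injective (fun (t : Fin n → ZMod p) (i : Fin m) =>
      (⟨((x i 0 : G) : G ⧸ A)⁻¹ * (x i t : G ⧸ A), (hk i).1 t⟩ : B.map (QuotientGroup.mk' A))) := by
    intro hinj
    have h1 := Nat.card_le_card_of_injective _ hinj
    rw [Nat.card_fun, Nat.card_fun, hcard, Nat.card_zmod, Nat.card_fin, Nat.card_fin] at h1
    exact absurd hlt (not_lt.2 h1)
  rw [Function.not_injective_iff] at hninj
  obtain ⟨s, t, hst, hne⟩ := hninj
  refine ⟨t - s, sub_ne_zero.2 (Ne.symm hne), fun i v => ?_⟩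
  have h2 : ((x i 0 : G) : G ⧸ A)⁻¹ * (x i s : G ⧸ A) =
      ((x i 0 : G) : G ⧸ A)⁻¹ * (x i t : G ⧸ A) := congrArg Subtype.val (congrFun hst i)
  have h3 : (x i s : G ⧸ A) = (x i t : G ⧸ A) := mul_left_cancel h2
  have h4 := (hk i).2 s (t - s)
  rw [add_sub_cancel, ← h3, mul_assoc] at h4
  have h5 : ((x i 0 : G) : G ⧸ A)⁻¹ * (x i (t - s) : G ⧸ A) = 1 := (mul_eq_left.1 h4.symm)
  rw [(hk i).2 v (t - s), mul_assoc, h5, mul_one]

/-- PROOF. The set is mapped to itself by `v ↦ v + u`, `u` from `exists_period` (`QuotientGroup.eq`;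
`A ≤ B`). This map has no fixed points and its `p`-th power is the identity (`p • u = 0`), so `p`
divides the number of elements (`Equiv.Perm.card_fixedPoints_modEq` or a similar lemma). -/
theorem count_kt [Fact p.Prime] (hAB : A ≤ B) (hlt : A.relIndex B ^ m < p ^ n)
    (x : Fin m → (Fin n → ZMod p) → G) (hx : ∀ i, x i ∈ Kt A B hB hBA (Fin n → ZMod p)) :
    p ∣ Nat.card {v : Fin n → ZMod p // ∀ i, x i v ∈ B ∧ x i v ∉ A} := by
  classical
  obtain ⟨u, hu, hper⟩ := exists_period hlt x hx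
  have hA : ∀ i v, x i (v + u) ∈ A ↔ x i v ∈ A := by
    intro i v
    rw [← QuotientGroup.eq_one_iff, ← QuotientGroup.eq_one_iff, hper]
  have hB' : ∀ i v, x i v ∈ B → x i (v + u) ∈ B := by
    intro i v hv
    have h1 := QuotientGroup.eq.1 (hper i v).symm
    have h2 := B.mul_mem hv (hAB h1)
    rwa [mul_inv_cancel_left] at h2
  have hS : ∀ v, (∀ i, x i v ∈ B ∧ x i v ∉ A) → ∀ i, x i (v + u) ∈ B ∧ x i (v + u) ∉ A :=
    fun v hv i => ⟨hB' i v (hv i).1, fun h => (hv i).2 ((hA i v).1 h)⟩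
  let f : Function.End {v : Fin n → ZMod p // ∀ i, x i v ∈ B ∧ x i v ∉ A} :=
    fun v => ⟨v.1 + u, hS v.1 v.2⟩
  have hf : ∀ (k : ℕ) (v : {v : Fin n → ZMod p // ∀ i, x i v ∈ B ∧ x i v ∉ A}),
      ((f ^ k) v).1 = v.1 + k • u := by
    intro k
    induction k with
    | zero =>
      intro v
      rw [pow_zero, zero_nsmul, add_zero]
      rfl
    | succ k ih =>
      intro v
      have h1 : (f ^ (k + 1)) v = (f ^ k) (f v) := by
        rw [pow_succ]
        rfl
      rw [h1, ih, succ_nsmul']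
      exact add_assoc _ _ _
  have hfp : f ^ p ^ 1 = 1 := by
    funext v
    apply Subtype.ext
    rw [hf, pow_one]
    have h1 : p • u = 0 := by
      funext i
      simp
    rw [h1, add_zero]
    rfl
  have : IsEmpty f.fixedPoints := by
    refine ⟨fun v => hu ?_⟩
    have h1 : v.1.1 + u = v.1.1 := congrArg Subtype.val v.2
    exact add_eq_left.1 h1
  have h := Equiv.Perm.card_fixedPoints_modEq (f := f) (p := p) (n := 1) hfp
  have h0 : Nat.card f.fixedPoints = 0 := Nat.card_of_isEmpty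
  rw [← Nat.card_eq_fintype_card, ← Nat.card_eq_fintype_card, h0] at h
  exact Nat.modEq_zero_iff_dvd.1 h

end Inf

end MP799fdf
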