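import Pool.Agent.Lib.MP_799fdf_al.Inf.KtA

/-! # Counting, the other direction; numbers -/

set_option autoImplicit false

namespace MP799fdf

namespace Inf

/-- PROOF. `b ^ k ∈ A ↔ p ∣ k` (the `k` with `b ^ k ∈ A` form a subgroup of `ℤ` that contains `p`, not `1`),
so `b ^ (v i).val ∉ A ↔ v i ≠ 0`. The number of functions `Fin n → ZMod p` without zeros is
`(p - 1) ^ n` (`Fintype.card_pi`), which is not divisible by `p`. -/
theorem count_pow {G : Type} [Group G] {A B : Subgroup G} {p : ℕ} [Fact p.Prime] {b : G}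
    (hb : b ∈ B) (hbA : b ∉ A) (hbp : b ^ p ∈ A) (n : ℕ) :
    ¬ p ∣ Nat.card {v : Fin n → ZMod p // ∀ i, b ^ (v i).val ∈ B ∧ b ^ (v i).val ∉ A} := by
  have hp : p.Prime := Fact.out
  have : NeZero p := ⟨hp.ne_zero⟩
  have key : ∀ x : ZMod p, (b ^ x.val ∈ B ∧ b ^ x.val ∉ A) ↔ x ≠ 0 := by
    intro x
    constructor
    · rintro ⟨-, h2⟩ rfl
      exact h2 (by rw [ZMod.val_zero, pow_zero]; exact A.one_mem)
    · intro hx
      refine ⟨B.pow_mem hb _, fun h2 => hbA ?_⟩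
      have hx0 : x.val ≠ 0 := fun h => hx ((ZMod.val_eq_zero x).1 h)
      have hlt := ZMod.val_lt x
      have hcop : Nat.Coprime x.val p := ((hp.coprime_iff_not_dvd).2 fun h =>
        absurd (Nat.le_of_dvd (Nat.pos_of_ne_zero hx0) h) (not_le_of_gt hlt)).symm
      have h3 := Nat.gcd_eq_gcd_ab x.val p
      rw [hcop.gcd_eq_one] at h3
      have h4 : b = (b ^ x.val) ^ (Nat.gcdA x.val p) * (b ^ p) ^ (Nat.gcdB x.val p) := by
        rw [← zpow_natCast, ← zpow_natCast, ← zpow_mul, ← zpow_mul, ← zpow_add, ← h3,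
          Nat.cast_one, zpow_one]
      rw [h4]
      exact A.mul_mem (A.zpow_mem h2 _) (A.zpow_mem hbp _)
  have h1 : Nat.card {v : Fin n → ZMod p // ∀ i, b ^ (v i).val ∈ B ∧ b ^ (v i).val ∉ A} =
      (p - 1) ^ n := by
    rw [Nat.card_congr (Equiv.subtypePiEquivPi
      (p := fun (_ : Fin n) (x : ZMod p) => b ^ x.val ∈ B ∧ b ^ x.val ∉ A)), Nat.card_pi,
      Finset.prod_const, Finset.card_univ, Fintype.card_fin,
      Nat.card_congr (Equiv.subtypeEquivRight key), Nat.card_congr unitsEquivNeZero.symm,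
      Nat.card_eq_fintype_card, ZMod.card_units]
  rw [h1]
  intro h2
  have h3 := Nat.le_of_dvd (Nat.sub_pos_of_lt hp.one_lt) (hp.dvd_of_dvd_pow h2)
  have h4 := hp.pos
  omega

/-- PROOF. `c < 2 ^ c ≤ p ^ c` (`Nat.lt_two_pow_self`), so `c ^ (c ^ k) < p ^ (c * c ^ k)`, and
`c * c ^ k = c ^ (k + 1) ≤ c ^ l`. -/
theorem num_lt {c p k l : ℕ} (hc : 2 ≤ c) (hp : 2 ≤ p) (hkl : k < l) :
    c ^ (c ^ k) < p ^ (c ^ l) := by
  have h1 : c < p ^ c := lt_of_lt_of_le Nat.lt_two_pow_self (Nat.pow_le_pow_left hp c)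
  have h2 : c ^ k ≠ 0 := (Nat.pow_pos (by omega)).ne'
  calc c ^ (c ^ k) < (p ^ c) ^ (c ^ k) := Nat.pow_lt_pow_left h1 h2
    _ = p ^ (c ^ (k + 1)) := by rw [← pow_mul, pow_succ, mul_comm c]
    _ ≤ p ^ (c ^ l) := Nat.pow_le_pow_right (by omega) (Nat.pow_le_pow_right (by omega) hkl)

end Inf

end MP799fdf
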