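import Pool.Agent.Lib.MP_799fdf_al.Inf.MainB

/-! # The main argument, part 3 -/

set_option autoImplicit false

open scoped commutatorElement

namespace MP799fdf

namespace Inf

open Inn

variable {G : Type} [Group G] {p : ℕ} {R H A B : Subgroup G} [H.Normal] {h : G}
variable {V K V' K' P J : Type} [Group K] [Group K'] [Group P]

private theorem finite_LL_aux [Finite P] (k : ℕ) : Finite (LL P k) := by
  unfold LL
  infer_instance

private theorem length_filter_univ_aux {X : Type} [Fintype X] (s : X → Prop) [DecidablePred s] :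
    ((Finset.univ : Finset X).toList.filter fun x => s x).length = Nat.card {x : X // s x} := by
  rw [Nat.card_eq_fintype_card, Fintype.card_subtype, ← Multiset.coe_card, ← Multiset.filter_coe,
    Finset.coe_toList]
  rfl

/-- The image of the product of marked elements. -/
private theorem map_prod_mark_aux [Finite P] [Finite G] [Finite K] (S : Setup G p R H A B h)
    (C : Comp G R H h V K) (ψ : P →* K) (hψ : Function.Surjective ψ)
    [Fintype (LL P (H.relIndex R))]
    (f : LL P (H.relIndex R) → Prop) [DecidablePred f] (g : V → Prop)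
    (hfg : ∀ (L : LL P (H.relIndex R)) (v : V), L.1.map ψ = (C.ι v).range → (f L ↔ g v))
    (e : LL P (H.relIndex R) → P) (z : K)
    (h1 : ∀ L, ¬ L.1 ≤ ψ.ker → ψ (e L) = z) (h2 : ∀ L, L.1 ≤ ψ.ker → ψ (e L) = 1) :
    ψ ((Finset.univ : Finset (LL P (H.relIndex R))).toList.map
      fun L => if f L then e L else 1).prod = z ^ Nat.card {v : V // g v} := by
  classical
  rw [map_list_prod, List.map_map, ← count_eq S C ψ hψ f g hfg,
    ← length_filter_univ_aux (fun L : LL P (H.relIndex R) => f L ∧ ¬ L.1 ≤ ψ.ker), ← list_prod_pow]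
  congr 1
  apply List.map_congr_left
  intro L _
  rw [Function.comp_apply]
  by_cases hf : f L
  · by_cases hk : L.1 ≤ ψ.ker
    · rw [if_pos hf, if_neg (fun hh => hh.2 hk), h2 L hk]
    · rw [if_pos hf, if_pos ⟨hf, hk⟩, h1 L hk]
  · rw [if_neg hf, if_neg (fun hh => hf hh.1), map_one]

/-- PROOF. Choose `y' : Fin m → P` with `ψ (y' i) = y i`; `f` by `exists_pred` for `y'`; `e L` by
`exists_mark`. Let `x` be the product over the list `(Finset.univ : Finset (LL P _)).toList` (`LL` is finite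
as `Subgroup P` is) of `if f L then e L else 1`. For each `j`,
`φ j x = (product of if f L ∧ ¬ L ≤ (φ j).ker then z else 1) = z ^ c` with `z = C.ι v r` and
`c = Nat.card {L // f L ∧ ¬ L.1 ≤ (φ j).ker}` (`list_prod_pow`), `= Nat.card {v // Good ..}` (`count_eq`),
divisible by `p` by `hC`; `z ^ p = C.ι v (r ^ p) = 1` (`S.hhp`). So `x = 1`. In the same way
`ψ x = z' ^ c'` with `z' = C'.ι v' r` of order `p` (`C'.inj`, `S.h1`, `S.hp`) and `c'` not divisible by
`p`, so `ψ x ≠ 1`, a contradiction. -/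
theorem main_aux [Finite P] [Finite G] [Finite K] [Finite K'] [Finite J] [Nonempty V]
    [Nonempty V'] (S : Setup G p R H A B h)
    (C : Comp G R H h V K) (C' : Comp G R H h V' K') (φ : J → P →* K)
    (hφ : ∀ j, Function.Surjective (φ j)) (hφi : ∀ x, (∀ j, φ j x = 1) → x = 1) (ψ : P →* K')
    (hψ : Function.Surjective ψ) {m : ℕ}
    (hC : ∀ y : Fin m → K, p ∣ Nat.card {v : V // Good A B C y v}) (y : Fin m → K') :
    p ∣ Nat.card {v' : V' // Good A B C' y v'} := by
  classical
  obtain ⟨v₀⟩ := ‹Nonempty V›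
  obtain ⟨v₁⟩ := ‹Nonempty V'›
  have hHR : H ≤ R := S.loc.lt.le
  obtain ⟨r, hr⟩ : ∃ r : R, (r : G) = h := ⟨⟨h, hHR S.hH⟩, rfl⟩
  have hrp : r ^ p = 1 := by
    apply Subtype.ext
    rw [SubgroupClass.coe_pow, hr, S.hhp]
    rfl
  have hr1 : r ≠ 1 := by
    intro h5
    apply S.h1
    rw [← hr, h5]
    rfl
  choose y' hy' using fun i => hψ (y i)
  obtain ⟨f, hf1, hf2⟩ := exists_pred S C C' φ hφ hφi ψ hψ y'
  have hy : (fun i => ψ (y' i)) = y := funext hy'
  have hmark : ∀ L : LL P (H.relIndex R), ∃ e : P,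
      (∀ j, ¬ L.1 ≤ (φ j).ker → φ j e = C.ι v₀ r) ∧ (∀ j, L.1 ≤ (φ j).ker → φ j e = 1) ∧
      (¬ L.1 ≤ ψ.ker → ψ e = C'.ι v₁ r) ∧ (L.1 ≤ ψ.ker → ψ e = 1) := by
    intro L
    obtain ⟨N, hL, hi⟩ := L.2
    exact exists_mark S C C' φ hφ hφi ψ hψ hL hi v₀ v₁ r hr
  choose e he1 he2 he3 he4 using hmark
  haveI : Finite (LL P (H.relIndex R)) := finite_LL_aux _
  haveI : Fintype (LL P (H.relIndex R)) := Fintype.ofFinite _
  have hx : ((Finset.univ : Finset (LL P (H.relIndex R))).toList.map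
      fun L => if f L then e L else 1).prod = 1 := by
    apply hφi
    intro j
    rw [map_prod_mark_aux S C (φ j) (hφ j) f (fun v => Good A B C (fun i => φ j (y' i)) v)
      (fun L v hv => hf1 L j v hv) e (C.ι v₀ r) (fun L hL => he1 L j hL) (fun L hL => he2 L j hL)]
    obtain ⟨c, hc⟩ := hC (fun i => φ j (y' i))
    rw [hc, pow_mul, ← map_pow, hrp, map_one, one_pow]
  have h3 := map_prod_mark_aux S C' ψ hψ f (fun v => Good A B C' (fun i => ψ (y' i)) v)
      (fun L v hv => hf2 L v hv) e (C'.ι v₁ r) (fun L hL => he3 L hL) (fun L hL => he4 L hL)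
  rw [hx, map_one] at h3
  have hord : orderOf (C'.ι v₁ r) = p := by
    haveI : Fact p.Prime := ⟨S.hp⟩
    refine orderOf_eq_prime ?_ ?_
    · rw [← map_pow, hrp, map_one]
    · intro h5
      exact hr1 (C'.inj v₁ (h5.trans (map_one _).symm))
  have h4 : p ∣ Nat.card {v' : V' // Good A B C' (fun i => ψ (y' i)) v'} := by
    rw [← hord]
    exact orderOf_dvd_of_pow_eq_one h3.symm
  rwa [hy] at h4

end Inf

end MP799fdf
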