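import Pool.Agent.Lib.MP_799fdf_al.Inf.Quo
import Pool.Agent.Lib.MP_799fdf_al.Inf.KtB
import Pool.Agent.Lib.MP_799fdf_al.Inf.KtC
import Pool.Agent.Lib.MP_799fdf_al.Inf.CharS
import Pool.Agent.Lib.MP_799fdf_al.Inf.FormS
import Pool.Agent.Lib.MP_799fdf_al.Inf.MainC

/-! # Infinitely many subformations -/

set_option autoImplicit false

open scoped commutatorElement

namespace MP799fdf

namespace Inf

open Inn

section

variable {G : Type} [Group G] [Finite G] {p : ℕ} {R H A B : Subgroup G} [H.Normal] {h : G}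

/-- The groups `K`. -/
theorem exists_comp (S : Setup G p R H A B h) (n : ℕ) :
    ∃ (K : Type) (_ : Group K) (_ : Finite K) (C : Comp G R H h (Fin n → ZMod p) K),
      (form G).mem K ∧
      (∀ m : ℕ, A.relIndex B ^ m < p ^ n → ∀ y : Fin m → K,
        p ∣ Nat.card {v : Fin n → ZMod p // Good A B C y v}) ∧
      ∃ y : Fin n → K, ¬ p ∣ Nat.card {v : Fin n → ZMod p // Good A B C y v} := by
  classical
  have hp : Fact p.Prime := ⟨S.hp⟩
  have hA := S.nA
  obtain ⟨K, iK, fK, q, hq, hk⟩ := exists_quot S (Fin n → ZMod p)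
  obtain ⟨C, hC⟩ := exists_comp_of S q hq hk
  refine ⟨K, iK, fK, C, form_mem_of S q hq, fun m hlt y => ?_, ?_⟩
  · choose x hx using fun i => hq (y i)
    have h1 : y = fun i => q (x i) := funext fun i => (hx i).symm
    have h2 := count_kt (hB := S.nB) (hBA := S.BA) S.AB.le hlt
      (fun i => ((x i : Kt A B S.nB S.BA (Fin n → ZMod p)) : (Fin n → ZMod p) → G))
      fun i => (x i).2
    rw [h1]
    rw [Nat.card_congr (Equiv.subtypeEquivRight fun v => good_iff S q C hC x v)]
    exact h2
  · obtain ⟨b, hb, hbA⟩ := Set.exists_of_ssubset (show (A : Set G) ⊂ B from S.AB)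
    have hb1 : b ∈ B := hb
    have hbA1 : b ∉ A := hbA
    let x : Fin n → Kt A B S.nB S.BA (Fin n → ZMod p) := fun i =>
      ⟨fun v => b ^ (v i).val, kt_pow hb1 (S.Bp b hb1) i⟩
    refine ⟨fun i => q (x i), ?_⟩
    rw [Nat.card_congr (Equiv.subtypeEquivRight fun v => good_iff S q C hC x v)]
    exact count_pow hb1 hbA1 (S.Bp b hb1) n

theorem main_inf (S : Setup G p R H A B h) {E : Type} [Group E] [Finite E] (π : E →* G)
    (hπ : Function.Surjective π) : {F : Formation | F.IsSub (form E)}.Infinite := by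
  classical
  have hp : Fact p.Prime := ⟨S.hp⟩
  have hc : 2 ≤ A.relIndex B := by
    have h1 : A.relIndex B ≠ 0 := Subgroup.index_ne_zero_of_finite (H := A.subgroupOf B)
    have h2 : A.relIndex B ≠ 1 := fun h => absurd S.AB (not_lt_of_ge (Subgroup.relIndex_eq_one.1 h))
    omega
  choose K iK fK C hKm hK1 hK2 using fun n => exists_comp S n
  have hmem : ∀ n, (form (K n)).IsSub (form E) := fun n => form_le (form E)
    (form_le (form E) ((form E).of_surj π hπ (mem_form E)) (K n) (hKm n))
  refine Set.infinite_of_injective_forall_mem (α := ℕ)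
    (f := fun k => form (K (A.relIndex B ^ k))) ?_ fun k => hmem _
  have key : ∀ k l, k < l → form (K (A.relIndex B ^ k)) ≠ form (K (A.relIndex B ^ l)) := by
    intro k l hkl e
    have h1 : (form (K (A.relIndex B ^ l))).mem (K (A.relIndex B ^ k)) := by
      rw [← e]
      exact mem_form _
    obtain ⟨P, J, iP, fP, fJ, φ, ψ, hφ, hφi, hψ⟩ := form_subdirect h1
    obtain ⟨y, hy⟩ := hK2 (A.relIndex B ^ k)
    exact hy (main_aux S (C (A.relIndex B ^ l)) (C (A.relIndex B ^ k)) φ hφ hφi ψ hψ
      (hK1 (A.relIndex B ^ l) (A.relIndex B ^ k) (num_lt hc S.hp.two_le hkl)) y)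
  intro k l e
  by_contra hne
  rcases lt_or_gt_of_ne hne with h | h
  · exact key k l h e
  · exact key l k h e.symm

end

end Inf

end MP799fdf
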