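import Pool.Agent.Lib.MP_799fdf_al.Inf.RigB
import Pool.Agent.Lib.MP_799fdf_al.Inf.Cnt

/-! # The main argument -/

set_option autoImplicit false

open scoped commutatorElement

namespace MP799fdf

namespace Inf

open Inn

variable {G : Type} [Group G] {p : ℕ} {R H A B : Subgroup G} [H.Normal] {h : G}
variable {V K V' K' P J : Type} [Group K] [Group K'] [Group P]

/-- PROOF. `L ≠ ⊥` (`Loc.ne_bot`) and the intersection of the kernels is trivial. -/
theorem exists_visible (φ : J → P →* K) (hφi : ∀ x, (∀ j, φ j x = 1) → x = 1)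
    {L N : Subgroup P} (hL : Loc L N) : ∃ j, ¬ L ≤ (φ j).ker := by
  by_contra hcon
  push Not at hcon
  apply hL.ne_bot
  rw [Subgroup.eq_bot_iff_forall]
  intro x hx
  exact hφi x fun j => MonoidHom.mem_ker.1 (hcon j hx)

/-- The marked element of a local subgroup `L`: all its images are the shared element `h`, or `1` if `L`
is mapped to `1`.

PROOF. `exists_visible` gives `j₀`, `comp_image` gives `v₀` with `L.map (φ j₀) = (C.ι v₀).range`; let
`e ∈ L` with `φ j₀ e = C.ι v₀ r` (`r = ⟨h, _⟩`). For other `j` with `¬ L ≤ (φ j).ker`: `comp_image`,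
`rigid_h`, `C.same`. The same for `ψ`. -/
theorem exists_mark [Finite P] [Finite G] [Finite K] [Finite K'] (S : Setup G p R H A B h)
    (C : Comp G R H h V K) (C' : Comp G R H h V' K') (φ : J → P →* K)
    (hφ : ∀ j, Function.Surjective (φ j)) (hφi : ∀ x, (∀ j, φ j x = 1) → x = 1) (ψ : P →* K')
    (hψ : Function.Surjective ψ) {L N : Subgroup P} (hL : Loc L N)
    (hi : N.relIndex L = H.relIndex R) (v : V) (v' : V') (r : R) (hr : (r : G) = h) :
    ∃ e : P, (∀ j, ¬ L ≤ (φ j).ker → φ j e = C.ι v r) ∧ (∀ j, L ≤ (φ j).ker → φ j e = 1) ∧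
      (¬ L ≤ ψ.ker → ψ e = C'.ι v' r) ∧ (L ≤ ψ.ker → ψ e = 1) := by
  obtain ⟨j₀, hj₀⟩ := exists_visible φ hφi hL
  obtain ⟨v₀, hv₀⟩ := comp_image S C (φ j₀) (hφ j₀) hL hi hj₀
  have hr₀ : C.ι v₀ r ∈ L.map (φ j₀) := by
    rw [hv₀]
    exact ⟨r, rfl⟩
  obtain ⟨e, he, her⟩ := Subgroup.mem_map.1 hr₀
  refine ⟨e, fun j hj => ?_, fun j hj => MonoidHom.mem_ker.1 (hj he), fun hj => ?_,
    fun hj => MonoidHom.mem_ker.1 (hj he)⟩
  · obtain ⟨v₁, hv₁⟩ := comp_image S C (φ j) (hφ j) hL hi hj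
    rw [rigid_h S C C (φ j₀) (hφ j₀) (φ j) (hφ j) hL hi hv₀ hv₁ e he r hr her]
    exact C.same v₁ v r hr
  · obtain ⟨v₁, hv₁⟩ := comp_image S C' ψ hψ hL hi hj
    rw [rigid_h S C C' (φ j₀) (hφ j₀) ψ hψ hL hi hv₀ hv₁ e he r hr her]
    exact C'.same v₁ v' r hr

end Inf

end MP799fdf
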