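import Pool.Agent.Lib.MP_799fdf_al.Inf.MainA

/-! # The main argument, part 2 -/

set_option autoImplicit false

open scoped commutatorElement

namespace MP799fdf

namespace Inf

open Inn

variable {G : Type} [Group G] {p : ℕ} {R H A B : Subgroup G} [H.Normal] {h : G}
variable {V K V' K' P J : Type} [Group K] [Group K'] [Group P]

/-- PROOF. For `L : LL P _` let `f L` mean: there are `j` and `v` with `L.1.map (φ j) = (C.ι v).range` and
`Good A B C (fun i => φ j (y i)) v`. By `rigid_good` (and `exists_visible`, `comp_image`) for every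
`j v` with `L.1.map (φ j) = (C.ι v).range` we have `f L ↔ Good A B C (fun i => φ j (y i)) v`, and for
every `v'` with `L.1.map ψ = (C'.ι v').range`, `f L ↔ Good A B C' (fun i => ψ (y i)) v'`. -/
theorem exists_pred [Finite P] [Finite G] [Finite K] [Finite K'] (S : Setup G p R H A B h)
    (C : Comp G R H h V K) (C' : Comp G R H h V' K') (φ : J → P →* K)
    (hφ : ∀ j, Function.Surjective (φ j)) (hφi : ∀ x, (∀ j, φ j x = 1) → x = 1) (ψ : P →* K')
    (hψ : Function.Surjective ψ) {m : ℕ} (y : Fin m → P) :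
    ∃ f : LL P (H.relIndex R) → Prop,
      (∀ (L : LL P (H.relIndex R)) (j : J) (v : V), L.1.map (φ j) = (C.ι v).range →
        (f L ↔ Good A B C (fun i => φ j (y i)) v)) ∧
      ∀ (L : LL P (H.relIndex R)) (v' : V'), L.1.map ψ = (C'.ι v').range →
        (f L ↔ Good A B C' (fun i => ψ (y i)) v') := by
  refine ⟨fun L => ∃ (j : J) (v : V), L.1.map (φ j) = (C.ι v).range ∧
    Good A B C (fun i => φ j (y i)) v, ?_, ?_⟩
  · intro L j v hv
    obtain ⟨N, hL, hi⟩ := L.2
    constructor
    · rintro ⟨j', v', hv', hg⟩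
      exact (rigid_good S C C (φ j') (hφ j') (φ j) (hφ j) hL hi hv' hv y).1 hg
    · intro hg
      exact ⟨j, v, hv, hg⟩
  · intro L v' hv'
    obtain ⟨N, hL, hi⟩ := L.2
    constructor
    · rintro ⟨j, v, hv, hg⟩
      exact (rigid_good S C C' (φ j) (hφ j) ψ hψ hL hi hv hv' y).1 hg
    · intro hg
      obtain ⟨j, hj⟩ := exists_visible φ hφi hL
      obtain ⟨v, hv⟩ := comp_image S C (φ j) (hφ j) hL hi hj
      exact ⟨j, v, hv, (rigid_good S C C' (φ j) (hφ j) ψ hψ hL hi hv hv' y).2 hg⟩

end Inf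

end MP799fdf
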