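import Pool.Agent.Lib.MP_799fdf_al.Inf.KtA
import Pool.Agent.Lib.MP_799fdf_al.Inf.BasB

/-! # The group `K`: affine functions modulo functions of product `1` with values in `⟨h⟩` -/

set_option autoImplicit false

open scoped commutatorElement

namespace MP799fdf

namespace Inf

open Inn

/-- the functions with values in the powers of `h` and of product `1` -/
def JJ {G : Type} [Group G] (h : G) (V : Type) [Fintype V] : Subgroup (V → G) where
  carrier := {t | ∃ a : V → ℤ, ∑ v, a v = 0 ∧ ∀ v, t v = h ^ a v}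
  one_mem' := ⟨fun _ => 0, by simp, fun v => by simp⟩
  mul_mem' := by
    rintro s t ⟨a, ha, hs⟩ ⟨b, hb, ht⟩
    refine ⟨fun v => a v + b v, by rw [Finset.sum_add_distrib, ha, hb, add_zero], fun v => ?_⟩
    rw [Pi.mul_apply, hs, ht, zpow_add]
  inv_mem' := by
    rintro s ⟨a, ha, hs⟩
    refine ⟨fun v => - a v, by rw [Finset.sum_neg_distrib, ha, neg_zero], fun v => ?_⟩
    rw [Pi.inv_apply, hs, zpow_neg]

section

variable {G : Type} [Group G] {p : ℕ} {R H A B : Subgroup G} [H.Normal] [A.Normal] {h : G}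

/-- PROOF. `K = Kt ⧸ (JJ h V).subgroupOf Kt`; the subgroup is normal because its elements are central in
`V → G` (`S.h_central`). -/
theorem exists_quot [Finite G] (S : Setup G p R H A B h) (V : Type) [AddCommGroup V] [Fintype V] :
    ∃ (K : Type) (_ : Group K) (_ : Finite K) (q : Kt A B S.nB S.BA V →* K),
      Function.Surjective q ∧ ∀ x, q x = 1 ↔ (x : V → G) ∈ JJ h V := by
  sorry

/-- PROOF. `C.ι v r = q ⟨Pi.mulSingle v r, _⟩` (`kt_of_mem`: values in `R ≤ A`), `C.π v` is induced by
`x ↦ x v` modulo `H` (the elements of `JJ h V` have values in `H`; e.g. `MonoidHom.liftOfSurjective` or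
`QuotientGroup.lift` for `q.ker`). `inj`: if `Pi.mulSingle v r ∈ JJ h V` with `a : V → ℤ`, then
`h ^ a w = 1`, so `p ∣ a w` for `w ≠ v` (`orderOf h = p`), so `p ∣ a v` as the sum is `0`, `r = h ^ a v = 1`.
`surj`: `kt_const`. `conj`: `k = q x`, `x v = g * z` with `z ∈ H`, and
`x * Pi.mulSingle v r * x⁻¹ = Pi.mulSingle v (x v * r * (x v)⁻¹)`; `z` commutes with `r` (`S.cen`).
`diag`, `off`: evaluate. `same`: `(Pi.mulSingle v h)⁻¹ * Pi.mulSingle w h ∈ JJ h V`. `ker`: `k = q x`,
`l = q y` with all `x v, y v ∈ H`, which commute (`S.cen`, `H ≤ R`). -/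
theorem exists_comp_of (S : Setup G p R H A B h) {V : Type} [AddCommGroup V] [Fintype V]
    [DecidableEq V] {K : Type} [Group K] (q : Kt A B S.nB S.BA V →* K)
    (hq : Function.Surjective q) (hk : ∀ x, q x = 1 ↔ (x : V → G) ∈ JJ h V) :
    ∃ C : Comp G R H h V K, ∀ (x : Kt A B S.nB S.BA V) (v : V),
      C.π v (q x) = (((x : V → G) v : G) : G ⧸ H) := by
  have hHR : H ≤ R := S.loc.lt.le
  have hJH : ∀ x : Kt A B S.nB S.BA V, q x = 1 → ∀ v, (x : V → G) v ∈ H := by
    intro x hx v
    obtain ⟨a, -, ha⟩ := (hk x).1 hx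
    rw [ha v]
    exact H.zpow_mem S.hH _
  have hπ : ∀ v : V, ∃ f : K →* G ⧸ H, ∀ x : Kt A B S.nB S.BA V,
      f (q x) = (((x : V → G) v : G) : G ⧸ H) := by
    intro v
    let e : Kt A B S.nB S.BA V →* G ⧸ H := (QuotientGroup.mk' H).comp
      ((Pi.evalMonoidHom (fun _ : V => G) v).comp (Kt A B S.nB S.BA V).subtype)
    have he : ∀ x, e x = (((x : V → G) v : G) : G ⧸ H) := fun x => rfl
    have hle : q.ker ≤ e.ker := by
      intro x hx
      rw [MonoidHom.mem_ker, he, QuotientGroup.eq_one_iff]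
      exact hJH x (MonoidHom.mem_ker.1 hx) v
    refine ⟨q.liftOfRightInverse (Function.surjInv hq) (Function.rightInverse_surjInv hq)
      ⟨e, hle⟩, fun x => ?_⟩
    rw [MonoidHom.liftOfRightInverse_comp_apply]
    exact he x
  choose π hπ using hπ
  have hmA : ∀ (v : V) (r : R) (w : V),
      (Pi.mulSingle v (r : G) : V → G) w ∈ A := by
    intro v r w
    by_cases hw : w = v
    · subst hw
      rw [Pi.mulSingle_eq_same]
      exact S.RA r.2
    · rw [Pi.mulSingle_eq_of_ne hw]
      exact A.one_mem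
  let em : (v : V) → R →* Kt A B S.nB S.BA V := fun v =>
    ((MonoidHom.mulSingle (fun _ : V => G) v).comp R.subtype).codRestrict (Kt A B S.nB S.BA V)
      (fun r => kt_of_mem (hmA v r))
  have hem : ∀ (v : V) (r : R), ((em v r : Kt A B S.nB S.BA V) : V → G) =
      Pi.mulSingle v (r : G) := fun v r => rfl
  have hord : ∀ n : ℤ, h ^ n = 1 → (p : ℤ) ∣ n := by
    intro n hn
    have : Fact p.Prime := ⟨S.hp⟩
    have h1 : orderOf h = p := orderOf_eq_prime_iff.2 ⟨S.hhp, S.h1⟩
    rw [← h1]
    exact orderOf_dvd_iff_zpow_eq_one.2 hn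
  have hdvd : ∀ n : ℤ, (p : ℤ) ∣ n → h ^ n = 1 := by
    rintro n ⟨m, rfl⟩
    rw [zpow_mul, zpow_natCast, S.hhp, one_zpow]
  refine ⟨{ ι := fun v => q.comp (em v), π := π, inj := ?_, surj := ?_, conj := ?_, diag := ?_,
            off := ?_, same := ?_, ker := ?_ }, fun x v => hπ v x⟩
  · intro v
    rw [injective_iff_map_eq_one]
    intro r hr
    obtain ⟨a, ha0, ha⟩ := (hk (em v r)).1 hr
    rw [hem] at ha
    have h1 : ∀ w ∈ Finset.univ.erase v, (p : ℤ) ∣ a w := by
      intro w hw
      apply hord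
      rw [← ha w, Pi.mulSingle_eq_of_ne (Finset.ne_of_mem_erase hw)]
    have h2 : (p : ℤ) ∣ a v := by
      have h3 := Finset.add_sum_erase Finset.univ a (Finset.mem_univ v)
      rw [ha0] at h3
      have h4 : a v = - ∑ w ∈ Finset.univ.erase v, a w := by omega
      rw [h4]
      exact (Finset.dvd_sum h1).neg_right
    have h5 := ha v
    rw [Pi.mulSingle_eq_same, hdvd _ h2] at h5
    exact Subtype.ext h5
  · intro v y
    obtain ⟨g, rfl⟩ := QuotientGroup.mk_surjective y
    exact ⟨q ⟨fun _ => g, kt_const g⟩, hπ v _⟩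
  · intro v k g r s hkg hs
    obtain ⟨x, rfl⟩ := hq k
    rw [hπ] at hkg
    have hz : ((x : V → G) v)⁻¹ * g ∈ H := QuotientGroup.eq.1 hkg
    have hcm := (S.cen _).1 hz r r.2
    have h1 : (x : V → G) v * r * ((x : V → G) v)⁻¹ = s := by
      rw [hs]
      have h2 : g * r * g⁻¹ = (x : V → G) v * ((((x : V → G) v)⁻¹ * g) * r) *
          (((x : V → G) v)⁻¹ * g)⁻¹ * ((x : V → G) v)⁻¹ := by group
      rw [h2, hcm]
      group
    have h3 : x * em v r * x⁻¹ = em v s := by
      apply Subtype.ext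
      funext w
      have h4 : (((x * em v r * x⁻¹ : Kt A B S.nB S.BA V)) : V → G) w =
        (x : V → G) w * (Pi.mulSingle v (r : G) : V → G) w * ((x : V → G) w)⁻¹ := rfl
      rw [h4, hem]
      by_cases hw : w = v
      · subst hw
        rw [Pi.mulSingle_eq_same, Pi.mulSingle_eq_same, h1]
      · rw [Pi.mulSingle_eq_of_ne hw, Pi.mulSingle_eq_of_ne hw, mul_one, mul_inv_cancel]
    change q x * q (em v r) * (q x)⁻¹ = q (em v s)
    rw [← h3, map_mul, map_mul, map_inv]
  · intro v r
    change π v (q (em v r)) = _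
    rw [hπ, hem, Pi.mulSingle_eq_same]
  · intro v w r hvw
    change π w (q (em v r)) = _
    rw [hπ, hem, Pi.mulSingle_eq_of_ne (Ne.symm hvw)]
    rfl
  · intro v w r hr
    change q (em v r) = q (em w r)
    rw [← inv_mul_eq_one, ← map_inv, ← map_mul, hk]
    refine ⟨fun u => (if u = w then 1 else 0) - (if u = v then 1 else 0), ?_, fun u => ?_⟩
    · rw [Finset.sum_sub_distrib]
      simp
    · have h4 : ((((em v r)⁻¹ * em w r : Kt A B S.nB S.BA V)) : V → G) u =
        ((Pi.mulSingle v (r : G) : V → G) u)⁻¹ * (Pi.mulSingle w (r : G) : V → G) u := rfl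
      rw [h4, hr]
      change _ = h ^ ((if u = w then (1 : ℤ) else 0) - (if u = v then (1 : ℤ) else 0))
      by_cases h1 : u = v
      · by_cases h2 : u = w
        · subst h1
          subst h2
          simp
        · subst h1
          rw [Pi.mulSingle_eq_same, Pi.mulSingle_eq_of_ne h2, if_neg h2, if_pos rfl]
          simp
      · by_cases h2 : u = w
        · subst h2
          rw [Pi.mulSingle_eq_same, Pi.mulSingle_eq_of_ne h1, if_neg h1, if_pos rfl]
          simp
        · rw [Pi.mulSingle_eq_of_ne h1, Pi.mulSingle_eq_of_ne h2, if_neg h1, if_neg h2]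
          simp
  · intro k l hk1 hl1
    obtain ⟨x, rfl⟩ := hq k
    obtain ⟨y, rfl⟩ := hq l
    rw [← map_mul, ← map_mul]
    congr 1
    apply Subtype.ext
    funext v
    change (x : V → G) v * (y : V → G) v = (y : V → G) v * (x : V → G) v
    have h1 := hk1 v
    have h2 := hl1 v
    rw [hπ, QuotientGroup.eq_one_iff] at h1 h2
    exact (S.cen _).1 h1 _ (hHR h2)

/-- PROOF. `Formation.of_family` for `Kt` and the coordinate maps (surjective by `kt_const`), then
`Formation.of_surj` for `q`; `mem_form`. -/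
theorem form_mem_of [Finite G] (S : Setup G p R H A B h) {V : Type} [AddCommGroup V] [Fintype V]
    {K : Type} [Group K] [Finite K] (q : Kt A B S.nB S.BA V →* K)
    (hq : Function.Surjective q) : (form G).mem K := by
  have : Nonempty V := ⟨0⟩
  refine Formation.of_surj (form G) q hq ?_
  refine Formation.of_family (form G) (J := V) (fun _ => G)
    (fun v => (Pi.evalMonoidHom (fun _ : V => G) v).comp (Kt A B S.nB S.BA V).subtype) ?_ ?_ ?_
  · intro v g
    exact ⟨⟨fun _ => g, kt_const g⟩, rfl⟩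
  · intro _
    exact mem_form G
  · intro x hx
    apply Subtype.ext
    funext v
    exact hx v

/-- PROOF. `H ≤ A < B`, so `x i v ∈ B` and `x i v ∉ A` depend only on `x i v` modulo `H`
(`QuotientGroup.eq`). -/
theorem good_iff (S : Setup G p R H A B h) {V : Type} [AddCommGroup V]
    {K : Type} [Group K] (q : Kt A B S.nB S.BA V →* K) (C : Comp G R H h V K)
    (hC : ∀ (x : Kt A B S.nB S.BA V) (v : V), C.π v (q x) = (((x : V → G) v : G) : G ⧸ H))
    {m : ℕ} (x : Fin m → Kt A B S.nB S.BA V) (v : V) :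
    Good A B C (fun i => q (x i)) v ↔
      ∀ i, (x i : V → G) v ∈ B ∧ (x i : V → G) v ∉ A := by
  sorry

end

end Inf

end MP799fdf
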