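import Pool.Agent.Lib.MP_799fdf_al.Inf.RigA

/-! # Rigidity of the components, part 2 -/

set_option autoImplicit false

open scoped commutatorElement

namespace MP799fdf

namespace Inf

open Inn

variable {G : Type} [Group G] {p : ℕ} {R H A B : Subgroup G} [H.Normal] {h : G}
variable {V K V' K' P : Type} [Group K] [Group K'] [Group P]

/-- A homomorphism whose values on `L` lie in the range of an injective one factors on `L`. -/
theorem rigB_factor {P Q R' : Type} [Group P] [Group Q] [Group R'] (ψ : P →* Q) (ι : R' →* Q)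
    (hι : Function.Injective ι) {L : Subgroup P} (hL : L.map ψ ≤ ι.range) :
    ∃ α : L →* R', ∀ x : L, ι (α x) = ψ (x : P) := by
  have h1 : ∀ x : L, ψ (x : P) ∈ ι.range := fun x => hL (Subgroup.mem_map_of_mem ψ x.2)
  refine ⟨(MonoidHom.ofInjective hι).symm.toMonoidHom.comp
    ((ψ.comp L.subtype).codRestrict ι.range h1), fun x => ?_⟩
  have h2 := MonoidHom.apply_ofInjective_symm hι ⟨ψ (x : P), h1 x⟩
  exact h2

/-- PROOF. For `l ∈ L` let `ψ l = C.ι v (α l)` and `ψ' l = C'.ι v' (β l)`; `α β : L →* R`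
(`C.inj`; e.g. `MonoidHom.ofInjective`). `τ (α l)` and `β l` agree modulo `H`: apply `hσ` and `C.diag`,
`C'.diag`. So `τ ∘ α = β` (`S.perf_hom`, `perf_top hL.perf`). -/
theorem rigidB (S : Setup G p R H A B h) (C : Comp G R H h V K)
    (C' : Comp G R H h V' K') (ψ : P →* K) (ψ' : P →* K') {L N : Subgroup P} (hL : Loc L N)
    {v : V} {v' : V'} (hv : L.map ψ = (C.ι v).range)
    (hv' : L.map ψ' = (C'.ι v').range) (σ : (G ⧸ H) ≃* (G ⧸ H))
    (hσ : ∀ x : P, C'.π v' (ψ' x) = σ (C.π v (ψ x))) (τ : R ≃* R)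
    (hτ : ∀ r : R, (((τ r : R) : G) : G ⧸ H) = σ ((r : G) : G ⧸ H)) (l : P) (hl : l ∈ L) (r : R)
    (hr : ψ l = C.ι v r) : ψ' l = C'.ι v' (τ r) := by
  obtain ⟨α, hα⟩ := rigB_factor ψ (C.ι v) (C.inj v) (L := L) (le_of_eq hv)
  obtain ⟨β, hβ⟩ := rigB_factor ψ' (C'.ι v') (C'.inj v') (L := L) (le_of_eq hv')
  have key : (τ.toMonoidHom.comp α) = β := by
    refine S.perf_hom (perf_top hL.perf) _ _ fun x => ?_
    have h1 : (((τ.toMonoidHom.comp α) x : R) : G) = ((τ (α x) : R) : G) := rfl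
    rw [h1, hτ, ← C.diag v (α x), hα x, ← hσ, ← hβ x, C'.diag]
  have hr2 : r = α ⟨l, hl⟩ := by
    apply C.inj v
    rw [← hr, hα ⟨l, hl⟩]
  have h3 : β ⟨l, hl⟩ = τ (α ⟨l, hl⟩) := by
    rw [← key]
    rfl
  rw [hr2, ← h3, hβ ⟨l, hl⟩]

/-- PROOF. `rigidA`, `S.nt`, `rigidB` for `r = ⟨h, _⟩`. -/
theorem rigid_h [Finite P] [Finite G] (S : Setup G p R H A B h) (C : Comp G R H h V K)
    (C' : Comp G R H h V' K') (ψ : P →* K) (hψ : Function.Surjective ψ) (ψ' : P →* K')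
    (hψ' : Function.Surjective ψ') {L N : Subgroup P} (hL : Loc L N)
    (hi : N.relIndex L = H.relIndex R) {v : V} {v' : V'} (hv : L.map ψ = (C.ι v).range)
    (hv' : L.map ψ' = (C'.ι v').range) (l : P) (hl : l ∈ L) (r : R) (hr : (r : G) = h)
    (hlr : ψ l = C.ι v r) : ψ' l = C'.ι v' r := by
  obtain ⟨σ, hσ⟩ := rigidA S C C' ψ hψ ψ' hψ' hL hi hv hv'
  obtain ⟨τ, hτ, hh⟩ := S.nt σ
  have h1 := rigidB S C C' ψ ψ' hL hv hv' σ hσ τ hτ l hl r hlr
  have h2 : τ r = r := Subtype.ext (by rw [hh r hr, hr])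
  rw [h1, h2]

/-- PROOF. `rigidA`; `C.π v (ψ (y i)) = g` and `C'.π v' (ψ' (y i)) = g'` (`QuotientGroup.mk_surjective`)
with `σ g = g'`, so `g ∈ B ↔ g' ∈ B`, `g ∈ A ↔ g' ∈ A` (`S.charA`, `S.charB`). -/
theorem rigid_good [Finite P] [Finite G] (S : Setup G p R H A B h) (C : Comp G R H h V K)
    (C' : Comp G R H h V' K') (ψ : P →* K) (hψ : Function.Surjective ψ) (ψ' : P →* K')
    (hψ' : Function.Surjective ψ') {L N : Subgroup P} (hL : Loc L N)
    (hi : N.relIndex L = H.relIndex R) {v : V} {v' : V'} (hv : L.map ψ = (C.ι v).range)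
    (hv' : L.map ψ' = (C'.ι v').range) {m : ℕ} (y : Fin m → P) :
    Good A B C (fun i => ψ (y i)) v ↔ Good A B C' (fun i => ψ' (y i)) v' := by
  obtain ⟨σ, hσ⟩ := rigidA S C C' ψ hψ ψ' hψ' hL hi hv hv'
  constructor
  · intro hg i
    obtain ⟨g, hgB, hgA, hgi⟩ := hg i
    obtain ⟨g', hg'⟩ := QuotientGroup.mk_surjective (C'.π v' (ψ' (y i)))
    have h1 : σ (g : G ⧸ H) = (g' : G ⧸ H) := by
      rw [hg', hσ (y i)]
      exact congrArg σ hgi.symm
    exact ⟨g', (S.charB σ g g' h1).1 hgB, fun h2 => hgA ((S.charA σ g g' h1).2 h2), hg'.symm⟩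
  · intro hg i
    obtain ⟨g', hgB, hgA, hgi⟩ := hg i
    obtain ⟨g, hg'⟩ := QuotientGroup.mk_surjective (C.π v (ψ (y i)))
    have h1 : σ (g : G ⧸ H) = (g' : G ⧸ H) := by
      rw [hg', ← hσ (y i)]
      exact hgi
    exact ⟨g, (S.charB σ g g' h1).2 hgB, fun h2 => hgA ((S.charA σ g g' h1).1 h2), hg'.symm⟩

end Inf

end MP799fdf
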