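import Pool.Agent.Lib.MP_799fdf_al.Inf.Defs
import Pool.Agent.Lib.MP_799fdf_al.Inf.CharS

/-! # From a `p`-chief factor to `Setup` -/

set_option autoImplicit false

open scoped commutatorElement

namespace MP799fdf

namespace Inf

open Inn

/-- PROOF. Let `q = QuotientGroup.mk' H`, `Q = G ⧸ H`. `R₀ = R.map q` is characteristic in `Q`
(`hnt`: `σ` maps `r H` to `(τ r) H`, `τ` is bijective). `exists_char` for `A₀.map q < B₀.map q`
(`H ≤ A₀`; `map_commutator`) gives characteristic subgroups `A' < B'` of `Q`. `A = A'.comap q`,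
`B = B'.comap q`; `Setup` holds: `loc` : perfect and `max`: for `M` normal, `M ≤ R`: `M ⊔ H` is `H` or `R`
(`hchief`); if `R` then `R = ⁅R, R⁆ = ⁅M ⊔ H, M ⊔ H⁆ ≤ M` because `H` commutes with `R` (`hcen`). `charA`,
`charB`: `σ` preserves `A'`, `B'`. -/
theorem exists_setup {G : Type} [Group G] [Finite G] {p : ℕ} (hp : p.Prime)
    (R H A₀ B₀ : Subgroup G) [H.Normal] (hR : R.Normal) (hA₀ : A₀.Normal) (hB₀ : B₀.Normal)
    (hHR : H < R) (hperf : ⁅R, R⁆ = R) (hcen : ∀ g : G, g ∈ H ↔ ∀ r ∈ R, g * r = r * g)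
    (hchief : ∀ M : Subgroup G, M.Normal → H ≤ M → M ≤ R → M = H ∨ M = R)
    (hdvd : ¬ H.relIndex R ∣ R.index) (hRA : R ≤ A₀) (hAB : A₀ < B₀) (hBA : ⁅B₀, B₀⁆ ≤ A₀)
    (hBp : ∀ b ∈ B₀, b ^ p ∈ A₀) (h : G) (hH : h ∈ H) (h1 : h ≠ 1) (hhp : h ^ p = 1)
    (hnt : ∀ σ : (G ⧸ H) ≃* (G ⧸ H), ∃ τ : R ≃* R,
      (∀ r : R, (((τ r : R) : G) : G ⧸ H) = σ ((r : G) : G ⧸ H)) ∧
        ∀ r : R, (r : G) = h → ((τ r : R) : G) = h) :
    ∃ A B : Subgroup G, Setup G p R H A B h := by
  have hHn : H.Normal := inferInstance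
  have hsurj : Function.Surjective (QuotientGroup.mk' H) := QuotientGroup.mk'_surjective H
  have hfin : Finite (G ⧸ H) := Finite.of_surjective _ hsurj
  have hkerA : (QuotientGroup.mk' H).ker ≤ A₀ := by
    rw [QuotientGroup.ker_mk']
    exact hHR.le.trans hRA
  have hR₀ : (R.map (QuotientGroup.mk' H)).Characteristic := by
    rw [Subgroup.characteristic_iff_map_le]
    intro σ y hy
    obtain ⟨x, hx, rfl⟩ := Subgroup.mem_map.1 hy
    obtain ⟨r, hr, rfl⟩ := Subgroup.mem_map.1 hx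
    obtain ⟨τ, hτ, -⟩ := hnt σ
    refine Subgroup.mem_map.2 ⟨((τ ⟨r, hr⟩ : R) : G), (τ ⟨r, hr⟩).2, ?_⟩
    exact hτ ⟨r, hr⟩
  have hlt : A₀.map (QuotientGroup.mk' H) < B₀.map (QuotientGroup.mk' H) := by
    refine lt_of_le_of_ne (Subgroup.map_mono hAB.le) fun e => ?_
    refine absurd hAB (not_lt_of_ge ?_)
    have h5 : B₀ ≤ (A₀.map (QuotientGroup.mk' H)).comap (QuotientGroup.mk' H) := by
      rw [← Subgroup.map_le_iff_le_comap, e]
    rwa [Subgroup.comap_map_eq_self hkerA] at h5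
  have hcom : ⁅B₀.map (QuotientGroup.mk' H), B₀.map (QuotientGroup.mk' H)⁆ ≤
      A₀.map (QuotientGroup.mk' H) := by
    rw [← Subgroup.map_commutator]
    exact Subgroup.map_mono hBA
  have hpow : ∀ b ∈ B₀.map (QuotientGroup.mk' H), b ^ p ∈ A₀.map (QuotientGroup.mk' H) := by
    intro b hb
    obtain ⟨x, hx, rfl⟩ := Subgroup.mem_map.1 hb
    rw [← map_pow]
    exact Subgroup.mem_map_of_mem _ (hBp x hx)
  obtain ⟨A', B', hA', hB', hRA', hAB', hBA', hBp'⟩ := exists_char p (R.map (QuotientGroup.mk' H)) hR₀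
    (A₀.map (QuotientGroup.mk' H)) (B₀.map (QuotientGroup.mk' H)) (hA₀.map _ hsurj) (hB₀.map _ hsurj)
    (Subgroup.map_mono hRA) hlt hcom hpow
  have hch : ∀ X : Subgroup (G ⧸ H), X.Characteristic → ∀ (σ : (G ⧸ H) ≃* (G ⧸ H)) (x y : G),
      σ (x : G ⧸ H) = (y : G ⧸ H) →
        (x ∈ X.comap (QuotientGroup.mk' H) ↔ y ∈ X.comap (QuotientGroup.mk' H)) := by
    intro X hX σ x y hxy
    rw [Subgroup.mem_comap, Subgroup.mem_comap]
    have h5 := hX.fixed σ
    have h6 : (QuotientGroup.mk' H) y = σ ((QuotientGroup.mk' H) x) := hxy.symm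
    rw [h6]
    constructor
    · intro h7
      rw [← h5] at h7
      exact h7
    · intro h7
      rw [← h5]
      exact h7
  refine ⟨A'.comap (QuotientGroup.mk' H), B'.comap (QuotientGroup.mk' H), ?_⟩
  refine
    { hp := hp
      loc := ⟨hR, hHn, hHR, hperf, ?_⟩
      cen := hcen
      dvd := hdvd
      nA := (Subgroup.normal_of_characteristic A').comap _
      nB := (Subgroup.normal_of_characteristic B').comap _
      RA := Subgroup.map_le_iff_le_comap.1 hRA'
      AB := (Subgroup.comap_lt_comap_of_surjective hsurj).2 hAB'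
      BA := ?_
      Bp := ?_
      charA := hch A' hA'
      charB := hch B' hB'
      hH := hH
      h1 := h1
      hhp := hhp
      nt := hnt }
  · intro M hM hMR
    rcases hchief (M ⊔ H) (Subgroup.sup_normal M H) le_sup_right (sup_le hMR hHR.le) with h5 | h5
    · left
      exact le_sup_left.trans h5.le
    · right
      refine le_antisymm hMR ?_
      rw [← hperf, Subgroup.commutator_le]
      intro r hr s hs
      have hr' : r ∈ M ⊔ H := by rw [h5]; exact hr
      obtain ⟨m, hm, z, hz, rfl⟩ := (Subgroup.mem_sup_of_normal_right).1 hr'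
      have hzs : z * s = s * z := (hcen z).1 hz s hs
      have h6 : ⁅m * z, s⁆ = m * (s * m⁻¹ * s⁻¹) := by
        rw [commutatorElement_def, mul_assoc m z s, hzs]
        group
      rw [h6]
      exact M.mul_mem hm (hM.conj_mem _ (M.inv_mem hm) s)
  · rw [Subgroup.commutator_le]
    intro x hx y hy
    rw [Subgroup.mem_comap, map_commutatorElement]
    exact hBA' (Subgroup.commutator_mem_commutator hx hy)
  · intro b hb
    rw [Subgroup.mem_comap, map_pow]
    exact hBp' _ hb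

end Inf

end MP799fdf
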